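import Mathlib

/-!
# The canonical nonclassical Hopf-Galois structure and the associated order
-/

set_option autoImplicit false

namespace Pool.Agent.U148.HG

open scoped Classical

variable (K L : Type*) [Field K] [Field L] [Algebra K L]

/-- The subgroup `N = λ(G)` of `Perm(G)`, `G = Gal(L/K)`, where `λ(g)(h) = g h`. -/
def LamG : Subgroup (Equiv.Perm (L ≃ₐ[K] L)) :=
  (MulAction.toPermHom (L ≃ₐ[K] L) (L ≃ₐ[K] L)).range

/-- The group structure of `N`. -/
instance (priority := 2000) instGroupLamG : Group (LamG K L) := Subgroup.toGroup (LamG K L)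

variable {K L}

/-- The element `λ(g)` of `N`. -/
def lam (g : L ≃ₐ[K] L) : LamG K L := ⟨MulAction.toPermHom _ _ g, g, rfl⟩

/-- The action of `g` on `L[N]`: `g · (∑ c_n n) = ∑ g(c_n) λ(g) n λ(g)⁻¹`. -/
noncomputable def act (g : L ≃ₐ[K] L) (x : MonoidAlgebra L (LamG K L)) :
    MonoidAlgebra L (LamG K L) :=
  x.coeff.sum fun n c => MonoidAlgebra.single (lam g * n * (lam g)⁻¹) (g c)

/-- the action of `g` as a homomorphism -/
noncomputable def actHom (g : L ≃ₐ[K] L) :
    MonoidAlgebra L (LamG K L) →ₐ[K] MonoidAlgebra L (LamG K L) :=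
  (MonoidAlgebra.mapDomainAlgHom K L (MulAut.conj (lam g)).toMonoidHom).comp
    (MonoidAlgebra.mapAlgHom (LamG K L) (g : L →ₐ[K] L))

/-- The action of an element of `L[N]` on `L`: `(∑ c_n n) · y = ∑ c_n (n⁻¹(1_G))(y)`. -/
noncomputable def hact (x : MonoidAlgebra L (LamG K L)) (y : L) : L :=
  x.coeff.sum fun n c => c * ((n : Equiv.Perm (L ≃ₐ[K] L))⁻¹ (1 : L ≃ₐ[K] L)) y

lemma actHom_single (g : L ≃ₐ[K] L) (n : LamG K L) (c : L) :
    actHom g (MonoidAlgebra.single n c) = MonoidAlgebra.single (lam g * n * (lam g)⁻¹) (g c) := by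
  unfold actHom
  simp

lemma act_single (g : L ≃ₐ[K] L) (n : LamG K L) (c : L) :
    act g (MonoidAlgebra.single n c) = MonoidAlgebra.single (lam g * n * (lam g)⁻¹) (g c) := by
  unfold act
  simp

lemma act_add (g : L ≃ₐ[K] L) (x y : MonoidAlgebra L (LamG K L)) :
    act g (x + y) = act g x + act g y := by
  unfold act
  rw [MonoidAlgebra.coeff_add, Finsupp.sum_add_index']
  · intro a; simp
  · intro a b c; simp

lemma act_eq (g : L ≃ₐ[K] L) (x : MonoidAlgebra L (LamG K L)) : act g x = actHom g x := by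
  induction x using MonoidAlgebra.induction_linear with
  | zero => simp [act]
  | add x y hx hy => rw [act_add, map_add, hx, hy]
  | single m r => rw [act_single, actHom_single]

lemma hact_single (n : LamG K L) (c y : L) :
    hact (MonoidAlgebra.single n c) y =
      c * ((n : Equiv.Perm (L ≃ₐ[K] L))⁻¹ (1 : L ≃ₐ[K] L)) y := by
  unfold hact
  simp

lemma lam_mul (g h : L ≃ₐ[K] L) : lam (g * h) = lam g * lam h :=
  Subtype.ext (map_mul _ _ _)

lemma lam_one : lam (1 : L ≃ₐ[K] L) = 1 := Subtype.ext (map_one _)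

lemma lam_inv (g : L ≃ₐ[K] L) : lam g⁻¹ = (lam g)⁻¹ := by
  rw [eq_comm, inv_eq_iff_mul_eq_one, ← lam_mul, mul_inv_cancel, lam_one]

lemma lam_inj : Function.Injective (lam : (L ≃ₐ[K] L) → LamG K L) := by
  intro g h hgh
  have h1 := congrArg (fun n : LamG K L => (n : Equiv.Perm (L ≃ₐ[K] L)) 1) hgh
  simpa [lam, MulAction.toPermHom] using h1

lemma lam_surj : Function.Surjective (lam : (L ≃ₐ[K] L) → LamG K L) := by
  rintro ⟨n, g, rfl⟩
  exact ⟨g, rfl⟩

lemma lam_apply (g : L ≃ₐ[K] L) :
    ((lam g : LamG K L) : Equiv.Perm (L ≃ₐ[K] L))⁻¹ (1 : L ≃ₐ[K] L) = g⁻¹ := by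
  rw [Equiv.Perm.inv_eq_iff_eq]
  simp [lam, MulAction.toPermHom]

/-- the identification of `G` with `N` -/
noncomputable def lamEquiv : (L ≃ₐ[K] L) ≃ LamG K L :=
  Equiv.ofBijective lam ⟨lam_inj, lam_surj⟩

lemma act_coeff (g : L ≃ₐ[K] L) (x : MonoidAlgebra L (LamG K L)) (n : LamG K L) :
    (act g x).coeff (lam g * n * (lam g)⁻¹) = g (x.coeff n) := by
  induction x using MonoidAlgebra.induction_linear with
  | zero => simp [act]
  | add x y hx hy => simp [act_add, hx, hy]
  | single m r =>
    rw [act_single, MonoidAlgebra.coeff_single, MonoidAlgebra.coeff_single,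
      Finsupp.single_apply, Finsupp.single_apply]
    by_cases h : m = n
    · rw [if_pos h, if_pos (by rw [h])]
    · rw [if_neg h, if_neg, map_zero]
      intro h2
      exact h (mul_left_cancel (mul_right_cancel h2))

lemma hact_add (x x' : MonoidAlgebra L (LamG K L)) (y : L) :
    hact (x + x') y = hact x y + hact x' y := by
  unfold hact
  rw [MonoidAlgebra.coeff_add, Finsupp.sum_add_index']
  · intro a; simp
  · intro a b c; ring

variable [FiniteDimensional K L]

lemma hact_eq (x : MonoidAlgebra L (LamG K L)) (y : L) :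
    hact x y = ∑ g : L ≃ₐ[K] L, x.coeff (lam g) * (g⁻¹ : L ≃ₐ[K] L) y := by
  induction x using MonoidAlgebra.induction_linear with
  | zero => simp [hact]
  | add x x' hx hx' =>
    rw [hact_add, hx, hx', ← Finset.sum_add_distrib]
    refine Finset.sum_congr rfl fun g _ => ?_
    rw [MonoidAlgebra.coeff_add, Finsupp.add_apply, add_mul]
  | single m r =>
    obtain ⟨g, rfl⟩ := lam_surj m
    rw [hact_single, lam_apply, Finset.sum_eq_single g]
    · rw [MonoidAlgebra.coeff_single, Finsupp.single_eq_same]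
    · intro h _ hh
      rw [MonoidAlgebra.coeff_single, Finsupp.single_apply, if_neg, zero_mul]
      intro h2
      exact hh (lam_inj h2).symm
    · intro h
      exact absurd (Finset.mem_univ g) h

end Pool.Agent.U148.HG
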