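import Pool.Agent.U148.HG.ExA

/-!
# The counterexample
-/

set_option autoImplicit false

namespace Pool.Agent.U148.HG.Ex

open scoped Classical
open Polynomial

/-- the field with four elements -/
abbrev k : Type := GaloisField 2 2

/-- the field `𝔽₂(t)` -/
abbrev KK : Type := RatFunc (ZMod 2)

lemma pow4 (c : k) : c ^ 4 = c := by
  have : Fintype k := Fintype.ofFinite k
  have h := FiniteField.pow_card c
  have h2 : Fintype.card k = 4 := by
    rw [← Nat.card_eq_fintype_card, GaloisField.card 2 2 (by norm_num)]
    norm_num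
  rwa [h2] at h

lemma two_k : (2 : k) = 0 := by
  have := CharP.cast_eq_zero k 2
  exact_mod_cast this

lemma exists_om : ∃ w : k, w ^ 2 + w + 1 = 0 := by
  by_contra hcon
  push Not at hcon
  have : Fintype k := Fintype.ofFinite k
  have h2 : Fintype.card k = 4 := by
    rw [← Nat.card_eq_fintype_card, GaloisField.card 2 2 (by norm_num)]
    norm_num
  have h3 : ∀ c : k, c = 0 ∨ c = 1 := by
    intro c
    have h4 : c * (c - 1) * (c ^ 2 + c + 1) = 0 := by
      linear_combination pow4 c
    rcases mul_eq_zero.1 h4 with h | h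
    · rcases mul_eq_zero.1 h with h | h
      · exact Or.inl h
      · exact Or.inr (sub_eq_zero.1 h)
    · exact absurd h (hcon c)
  have h5 : (Finset.univ : Finset k) ⊆ {0, 1} := by
    intro c _
    rcases h3 c with h | h <;> simp [h]
  have h6 := Finset.card_le_card h5
  rw [Finset.card_univ, h2] at h6
  have h7 : ({0, 1} : Finset k).card ≤ 2 := Finset.card_le_two
  omega

/-- a primitive third root of unity -/
noncomputable def om : k := exists_om.choose

lemma om_eq : om ^ 2 + om + 1 = 0 := exists_om.choose_spec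

lemma om3 : om ^ 3 = 1 := by linear_combination (om - 1) * om_eq

/-- the decomposition of an element of `k` -/
lemma decomp (c : k) : ∃ a b : k, (a = 0 ∨ a = 1) ∧ (b = 0 ∨ b = 1) ∧ c = a + b * om := by
  have h0 : ∀ x : k, x ^ 2 = x → x = 0 ∨ x = 1 := by
    intro x hx
    have : x * (x - 1) = 0 := by linear_combination hx
    rcases mul_eq_zero.1 this with h | h
    · exact Or.inl h
    · exact Or.inr (sub_eq_zero.1 h)
  refine ⟨c - (c + c ^ 2) * om, c + c ^ 2, ?_, ?_, by ring⟩
  · apply h0
    linear_combination (c + c ^ 2) ^ 2 * om_eq - (om + 1) * pow4 c +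
      (-c - c ^ 2 * om - 2 * c ^ 3 * om - c ^ 3) * two_k
  · apply h0
    linear_combination c ^ 3 * two_k + pow4 c

/-- the field `𝔽₄(u)` -/
def LL : Type := RatFunc k

noncomputable instance instFieldLL : Field LL := inferInstanceAs (Field (RatFunc k))

noncomputable instance instAlgLL : Algebra k[X] LL := inferInstanceAs (Algebra k[X] (RatFunc k))

instance instFracLL : IsFractionRing k[X] LL := inferInstanceAs (IsFractionRing k[X] (RatFunc k))

/-- the inclusion of the polynomial ring -/
noncomputable def mk : k[X] →+* LL := algebraMap k[X] LL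

lemma mk_inj : Function.Injective mk := IsFractionRing.injective k[X] LL

/-- the map `𝔽₂[t] → 𝔽₄[u]`, `t ↦ u³` -/
noncomputable def iota : (ZMod 2)[X] →+* k[X] :=
  ((expand k 3 : k[X] →ₐ[k] k[X]) : k[X] →+* k[X]).comp (mapRingHom (algebraMap (ZMod 2) k))

lemma iota_inj : Function.Injective iota := by
  intro p q h
  have h1 := Polynomial.expand_injective (by norm_num : 0 < 3) h
  exact Polynomial.map_injective _ (algebraMap (ZMod 2) k).injective h1

lemma iota_X : iota X = X ^ 3 := by
  simp [iota]

/-- the inclusion `𝔽₂(t) → 𝔽₄(u)` -/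
noncomputable def kl : KK →+* LL :=
  IsFractionRing.lift (A := (ZMod 2)[X]) (K := KK) (g := mk.comp iota) (mk_inj.comp iota_inj)

lemma kl_mk (a : (ZMod 2)[X]) : kl (algebraMap (ZMod 2)[X] KK a) = mk (iota a) :=
  IsFractionRing.lift_algebraMap _ a

noncomputable instance instAlgKL : Algebra KK LL := kl.toAlgebra

lemma algebraMap_eq (x : KK) : algebraMap KK LL x = kl x := rfl

/-- the generator -/
noncomputable def u : LL := mk X

/-- the constants -/
noncomputable def ee : k →+* LL := mk.comp C

lemma t_eq : algebraMap KK LL (algebraMap (ZMod 2)[X] KK X) = u ^ 3 := by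
  rw [algebraMap_eq, kl_mk, iota_X, map_pow]
  rfl

/-- ring homomorphisms out of `LL` -/
lemma hom_ext {S : Type*} [Field S] {f g : LL →+* S} (h1 : ∀ c, f (ee c) = g (ee c))
    (h2 : f u = g u) : f = g := by
  apply IsLocalization.ringHom_ext (nonZeroDivisors k[X])
  apply Polynomial.ringHom_ext
  · intro c
    exact h1 c
  · exact h2

/-- extension of an injective homomorphism -/
noncomputable def ext1 (s : k[X] →+* k[X]) (hs : Function.Injective s) : LL →+* LL :=
  IsFractionRing.lift (A := k[X]) (K := LL) (g := mk.comp s) (mk_inj.comp hs)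

lemma ext1_mk (s : k[X] →+* k[X]) (hs : Function.Injective s) (p : k[X]) :
    ext1 s hs (mk p) = mk (s p) :=
  IsFractionRing.lift_algebraMap _ p

/-- the homomorphism is linear over `𝔽₂(t)` if it fixes `u³` -/
lemma ext1_kl (s : k[X] →+* k[X]) (hs : Function.Injective s) (h3 : s (X ^ 3) = X ^ 3) (x : KK) :
    ext1 s hs (algebraMap KK LL x) = algebraMap KK LL x := by
  have h : (ext1 s hs).comp kl = kl := by
    apply IsLocalization.ringHom_ext (nonZeroDivisors (ZMod 2)[X])
    apply Polynomial.ringHom_ext'
    · exact Subsingleton.elim _ _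
    · change ext1 s hs (kl (algebraMap (ZMod 2)[X] KK X)) = kl (algebraMap (ZMod 2)[X] KK X)
      rw [kl_mk, ext1_mk, iota_X, h3]
  exact DFunLike.congr_fun h x

/-- `K`-algebra endomorphism -/
noncomputable def extA (s : k[X] →+* k[X]) (hs : Function.Injective s) (h3 : s (X ^ 3) = X ^ 3) :
    LL →ₐ[KK] LL :=
  { ext1 s hs with commutes' := ext1_kl s hs h3 }

lemma extA_mk (s : k[X] →+* k[X]) (hs : Function.Injective s) (h3 : s (X ^ 3) = X ^ 3)
    (p : k[X]) : extA s hs h3 (mk p) = mk (s p) := ext1_mk s hs p

/-- the map `u ↦ ω u` -/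
noncomputable def s1 : k[X] →+* k[X] := compRingHom (C om * X)

lemma s1_C (c : k) : s1 (C c) = C c := by simp [s1]

lemma s1_X : s1 X = C om * X := by simp [s1]

lemma s1_inj : Function.Injective s1 := by
  have h : (s1.comp s1).comp s1 = RingHom.id k[X] := by
    apply Polynomial.ringHom_ext
    · intro c
      simp [s1_C]
    · simp only [RingHom.comp_apply, s1_X, map_mul, s1_C, RingHom.id_apply]
      rw [← mul_assoc, ← mul_assoc, ← C_mul, ← C_mul]
      have : om * om * om = 1 := by rw [← om3]; ring
      rw [this, C_1, one_mul]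
  have h2 : Function.LeftInverse (s1.comp s1) s1 := fun p => DFunLike.congr_fun h p
  exact h2.injective

lemma s1_cube : s1 (X ^ 3) = X ^ 3 := by
  rw [map_pow, s1_X, mul_pow, ← C_pow, om3, C_1, one_mul]

/-- the Frobenius on the coefficients -/
noncomputable def t1 : k[X] →+* k[X] := mapRingHom (frobenius k 2)

lemma t1_C (c : k) : t1 (C c) = C (c ^ 2) := by simp [t1, frobenius_def]

lemma t1_X : t1 X = X := by simp [t1]

lemma t1_inj : Function.Injective t1 :=
  Polynomial.map_injective _ (frobenius k 2).injective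

lemma t1_cube : t1 (X ^ 3) = X ^ 3 := by rw [map_pow, t1_X]

end Pool.Agent.U148.HG.Ex
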