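import Pool.Agent.U148.HG.Ex

/-!
# The Galois group of the counterexample
-/

set_option autoImplicit false

namespace Pool.Agent.U148.HG.Ex

open scoped Classical
open Polynomial

/-- the spanning family -/
noncomputable def vv (p : Fin 3 × Fin 2) : LL := mk (C (om ^ (p.2 : ℕ)) * X ^ (p.1 : ℕ))

/-- the span -/
noncomputable def MM : Submodule KK LL := Submodule.span KK (Set.range vv)

lemma mono_mem0 (j : Fin 2) (n : ℕ) : mk (C (om ^ (j : ℕ)) * X ^ n) ∈ MM := by
  have h1 : mk (C (om ^ (j : ℕ)) * X ^ n) = (algebraMap (ZMod 2)[X] KK X) ^ (n / 3) •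
      vv (⟨n % 3, Nat.mod_lt _ (by norm_num)⟩, j) := by
    rw [Algebra.smul_def, map_pow (algebraMap KK LL), t_eq, vv]
    change _ = (mk X ^ 3) ^ (n / 3) * mk (C (om ^ (j : ℕ)) * X ^ (n % 3))
    rw [← map_pow, ← map_pow, ← map_mul]
    congr 1
    rw [← pow_mul]
    calc C (om ^ (j : ℕ)) * X ^ n = C (om ^ (j : ℕ)) * X ^ (3 * (n / 3) + n % 3) := by
          rw [Nat.div_add_mod]
      _ = _ := by rw [pow_add]; ring
  rw [h1]
  exact MM.smul_mem _ (Submodule.subset_span ⟨_, rfl⟩)

lemma mono_mem (c : k) (n : ℕ) : mk (C c * X ^ n) ∈ MM := by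
  obtain ⟨a, b, ha, hb, rfl⟩ := decomp c
  have e : mk (C (a + b * om) * X ^ n) = mk (C a * X ^ n) + mk (C b * (C om * X ^ n)) := by
    rw [← map_add, C_add, C_mul]
    congr 1
    ring
  have h0 := mono_mem0 0 n
  have h1 := mono_mem0 1 n
  simp only [Fin.val_zero, pow_zero, Fin.val_one, pow_one] at h0 h1
  rw [e]
  refine MM.add_mem ?_ ?_
  · rcases ha with rfl | rfl
    · rw [C_0, zero_mul, map_zero]
      exact MM.zero_mem
    · exact h0
  · rcases hb with rfl | rfl
    · rw [C_0, zero_mul, map_zero]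
      exact MM.zero_mem
    · rw [C_1, one_mul]
      exact h1

lemma poly_mem (p : k[X]) : mk p ∈ MM := by
  induction p using Polynomial.induction_on' with
  | add p q hp hq => rw [map_add]; exact MM.add_mem hp hq
  | monomial n a => rw [← C_mul_X_pow_eq_monomial]; exact mono_mem a n

lemma mul_mem_MM (q : k[X]) {x : LL} (hx : x ∈ MM) : mk q * x ∈ MM := by
  refine Submodule.span_induction (p := fun x _ => mk q * x ∈ MM) ?_ ?_ ?_ ?_ hx
  · rintro _ ⟨p, rfl⟩
    rw [vv, ← map_mul]
    exact poly_mem _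
  · rw [mul_zero]
    exact MM.zero_mem
  · intro x y _ _ hx hy
    rw [mul_add]
    exact MM.add_mem hx hy
  · intro r x _ hx
    rw [mul_smul_comm]
    exact MM.smul_mem r hx

lemma MM_top : MM = ⊤ := by
  rw [eq_top_iff]
  intro x _
  obtain ⟨p, q, hq, rfl⟩ := IsFractionRing.div_surjective (A := k[X]) x
  have hq0 : mk q ≠ 0 := by
    intro h
    exact nonZeroDivisors.ne_zero hq (mk_inj (by rw [h, map_zero]))
  have hfin : FiniteDimensional KK MM := FiniteDimensional.span_of_finite KK (Set.finite_range vv)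
  let T : MM →ₗ[KK] MM :=
    { toFun := fun x => ⟨mk q * x, mul_mem_MM q x.2⟩
      map_add' := fun x y => Subtype.ext (mul_add (mk q) (x : LL) (y : LL))
      map_smul' := fun r x => Subtype.ext (mul_smul_comm r (mk q) (x : LL)) }
  have hT : Function.Injective T := by
    intro x y h
    exact Subtype.ext (mul_left_cancel₀ hq0 (congrArg Subtype.val h))
  obtain ⟨m, hm⟩ := LinearMap.injective_iff_surjective.1 hT ⟨mk p, poly_mem p⟩
  have hm' : mk q * (m : LL) = mk p := congrArg Subtype.val hm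
  have : mk p / mk q = (m : LL) := by
    rw [div_eq_iff hq0, ← hm', mul_comm]
  change mk p / mk q ∈ MM
  rw [this]
  exact m.2

instance instFinLL : FiniteDimensional KK LL := by
  refine ⟨?_⟩
  rw [← MM_top]
  exact Submodule.fg_span (Set.finite_range vv)

lemma finrank_le : Module.finrank KK LL ≤ 6 := by
  rw [← finrank_top, ← MM_top]
  have h := finrank_range_le_card (R := KK) vv
  change Set.finrank KK (Set.range vv) ≤ 6
  exact h.trans (by simp)

/-- the automorphism `u ↦ ω u` -/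
noncomputable def sg : LL ≃ₐ[KK] LL :=
  AlgEquiv.ofBijective (extA s1 s1_inj s1_cube) (Algebra.IsAlgebraic.algHom_bijective _)

/-- the Frobenius on the coefficients -/
noncomputable def tg : LL ≃ₐ[KK] LL :=
  AlgEquiv.ofBijective (extA t1 t1_inj t1_cube) (Algebra.IsAlgebraic.algHom_bijective _)

lemma sg_mk (p : k[X]) : sg (mk p) = mk (s1 p) := extA_mk s1 s1_inj s1_cube p

lemma tg_mk (p : k[X]) : tg (mk p) = mk (t1 p) := extA_mk t1 t1_inj t1_cube p

lemma sg_ee (c : k) : sg (ee c) = ee c := by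
  change sg (mk (C c)) = mk (C c)
  rw [sg_mk, s1_C]

lemma sg_u : sg u = ee om * u := by
  change sg (mk X) = mk (C om) * mk X
  rw [sg_mk, s1_X, map_mul]

lemma tg_ee (c : k) : tg (ee c) = (ee c) ^ 2 := by
  change tg (mk (C c)) = (mk (C c)) ^ 2
  rw [tg_mk, t1_C, C_pow, map_pow]

lemma tg_u : tg u = u := by
  change tg (mk X) = mk X
  rw [tg_mk, t1_X]

lemma aut_ext {g h : LL ≃ₐ[KK] LL} (h1 : ∀ c, g (ee c) = h (ee c)) (h2 : g u = h u) : g = h := by
  have h3 : ((g : LL →ₐ[KK] LL) : LL →+* LL) = ((h : LL →ₐ[KK] LL) : LL →+* LL) :=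
    hom_ext h1 h2
  ext x
  exact DFunLike.congr_fun h3 x

lemma ee4 (c : k) : (ee c ^ 2) ^ 2 = ee c := by
  rw [← map_pow, ← map_pow, ← pow_mul]
  exact congrArg ee (pow4 c)

lemma rel_tt : tg * tg = 1 := by
  apply aut_ext
  · intro c
    rw [AlgEquiv.mul_apply, tg_ee, map_pow, tg_ee, ee4]
    rfl
  · rw [AlgEquiv.mul_apply, tg_u, tg_u]
    rfl

lemma rel_ts : tg * sg = sg * sg * tg := by
  apply aut_ext
  · intro c
    simp only [AlgEquiv.mul_apply, tg_ee, sg_ee, map_pow]
  · simp only [AlgEquiv.mul_apply, tg_u, sg_u, map_mul, tg_ee, sg_ee]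
    ring

lemma ee_om3 : ee om ^ 3 = 1 := by rw [← map_pow, om3, map_one]

lemma rel_sss : sg * sg * sg = 1 := by
  apply aut_ext
  · intro c
    simp only [AlgEquiv.mul_apply, sg_ee]
    rfl
  · simp only [AlgEquiv.mul_apply, sg_u, map_mul, sg_ee]
    change _ = u
    linear_combination u * ee_om3

lemma ee_om_eq : ee om ^ 2 + ee om + 1 = 0 := by
  have := congrArg ee om_eq
  simpa using this

lemma ee_om_ne0 : ee om ≠ 0 := by
  intro h
  have := ee_om3
  rw [h] at this
  norm_num at this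

lemma two_LL : (2 : LL) = 0 := by
  have := congrArg ee two_k
  rw [map_zero, map_ofNat] at this
  exact this

lemma ee_om_ne1 : ee om ≠ 1 := by
  intro h
  have h1 := ee_om_eq
  rw [h] at h1
  have h6 : (1 : LL) = 0 := by linear_combination h1 - two_LL
  exact one_ne_zero h6

lemma u_ne0 : u ≠ 0 := by
  intro h
  have : (X : k[X]) = 0 := mk_inj (by rw [map_zero]; exact h)
  exact X_ne_zero this

/-- the enumeration of the group -/
noncomputable def gf (p : Fin 3 × Fin 2) : LL ≃ₐ[KK] LL := sg ^ (p.1 : ℕ) * tg ^ (p.2 : ℕ)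

lemma gf_u (p : Fin 3 × Fin 2) : gf p u = ee om ^ (p.1 : ℕ) * u := by
  obtain ⟨i, j⟩ := p
  fin_cases i <;> fin_cases j <;>
  simp [gf, pow_two, AlgEquiv.mul_apply, sg_u, tg_u, sg_ee, tg_ee, mul_assoc]

lemma gf_w (p : Fin 3 × Fin 2) : gf p (ee om) = ee om ^ (2 ^ (p.2 : ℕ)) := by
  obtain ⟨i, j⟩ := p
  fin_cases i <;> fin_cases j <;>
  simp [gf, pow_two, AlgEquiv.mul_apply, sg_u, tg_u, sg_ee, tg_ee]

lemma gf_inj : Function.Injective gf := by
  intro p q h
  have h1 : ee om ^ (p.1 : ℕ) = ee om ^ (q.1 : ℕ) := by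
    have := congrArg (fun g : LL ≃ₐ[KK] LL => g u) h
    simp only [gf_u] at this
    exact mul_right_cancel₀ u_ne0 this
  have h2 : ee om ^ (2 ^ (p.2 : ℕ)) = ee om ^ (2 ^ (q.2 : ℕ)) := by
    have := congrArg (fun g : LL ≃ₐ[KK] LL => g (ee om)) h
    simpa only [gf_w] using this
  have hne : ee om ≠ ee om ^ 2 := by
    intro h
    have h3 : ee om * (ee om - 1) = 0 := by linear_combination -h
    rcases mul_eq_zero.1 h3 with h | h
    · exact ee_om_ne0 h
    · exact ee_om_ne1 (sub_eq_zero.1 h)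
  have hne2 : (1 : LL) ≠ ee om ^ 2 := by
    intro h
    have h3 := ee_om3
    rw [pow_succ, ← h, one_mul] at h3
    exact ee_om_ne1 h3
  obtain ⟨i, j⟩ := p
  obtain ⟨i', j'⟩ := q
  have hA : ee om ^ 0 ≠ ee om ^ 1 := by
    rw [pow_zero, pow_one]
    exact ee_om_ne1.symm
  have hB : ee om ^ 0 ≠ ee om ^ 2 := by
    rw [pow_zero]
    exact hne2
  have hC : ee om ^ 1 ≠ ee om ^ 2 := by
    rw [pow_one]
    exact hne
  have hi : i = i' := by
    fin_cases i <;> fin_cases i' <;>
    first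
      | rfl
      | exact absurd h1 hA
      | exact absurd h1.symm hA
      | exact absurd h1 hB
      | exact absurd h1.symm hB
      | exact absurd h1 hC
      | exact absurd h1.symm hC
  have hj : j = j' := by
    fin_cases j <;> fin_cases j' <;>
    first
      | rfl
      | exact absurd h2 hC
      | exact absurd h2.symm hC
  rw [hi, hj]

lemma card_eq : Fintype.card (Fin 3 × Fin 2) = Fintype.card (LL ≃ₐ[KK] LL) := by
  apply le_antisymm
  · exact Fintype.card_le_of_injective gf gf_inj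
  · calc Fintype.card (LL ≃ₐ[KK] LL) ≤ Module.finrank KK LL := AlgEquiv.card_le
      _ ≤ 6 := finrank_le
      _ = _ := by simp

lemma card_six : Fintype.card (LL ≃ₐ[KK] LL) = 6 := by rw [← card_eq]; simp

instance instGalLL : IsGalois KK LL := by
  apply IsGalois.of_card_aut_eq_finrank
  rw [Nat.card_eq_fintype_card]
  apply le_antisymm AlgEquiv.card_le
  rw [card_six]
  exact finrank_le

lemma gf_bij : Function.Bijective gf :=
  (Fintype.bijective_iff_injective_and_card gf).2 ⟨gf_inj, card_eq⟩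

lemma sum_G (f : (LL ≃ₐ[KK] LL) → LL) : ∑ g : LL ≃ₐ[KK] LL, f g =
    f 1 + f sg + f (sg * sg) + f tg + f (sg * tg) + f (sg * sg * tg) := by
  rw [← (Equiv.ofBijective gf gf_bij).sum_comp f, Fintype.sum_prod_type, Fin.sum_univ_three,
    Fin.sum_univ_two, Fin.sum_univ_two, Fin.sum_univ_two]
  simp only [Equiv.ofBijective_apply, gf, Fin.val_zero, Fin.val_one, Fin.val_two, pow_zero,
    pow_one, one_mul, mul_one, pow_two]
  ring

end Pool.Agent.U148.HG.Ex
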