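import Pool.Agent.U148.HG.Ex2

/-!
# The rings of integers in extensions of `𝔽₂(t)` and the counterexample
-/

set_option autoImplicit false

namespace Pool.Agent.U148.HG.Ex

open scoped Classical
open Polynomial

/-- The ring of integers of an extension `F` of `𝔽₂(t)`: the elements integral over `𝔽₂[t]`. -/
noncomputable def integers (F : Type*) [Field F] [Algebra (RatFunc (ZMod 2)) F] : Subring F :=
  letI : Algebra (ZMod 2)[X] F :=
    ((algebraMap (RatFunc (ZMod 2)) F).comp (algebraMap (ZMod 2)[X] (RatFunc (ZMod 2)))).toAlgebra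
  (integralClosure (ZMod 2)[X] F).toSubring

lemma mem_integers {F : Type*} [Field F] [Algebra (RatFunc (ZMod 2)) F] {x : F} :
    x ∈ integers F ↔ ((algebraMap (RatFunc (ZMod 2)) F).comp
      (algebraMap (ZMod 2)[X] (RatFunc (ZMod 2)))).IsIntegralElem x := Iff.rfl

lemma dedeF (F : Type*) [Field F] [Algebra KK F] [FiniteDimensional KK F]
    [Algebra.IsSeparable KK F] : IsDedekindDomain (integers F) := by
  letI : Algebra (ZMod 2)[X] F :=
    ((algebraMap KK F).comp (algebraMap (ZMod 2)[X] KK)).toAlgebra
  have t1 : IsScalarTower (ZMod 2)[X] KK F := IsScalarTower.of_algebraMap_eq fun _ => rfl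
  have : IsDedekindDomain (integralClosure (ZMod 2)[X] F) :=
    integralClosure.isDedekindDomain (ZMod 2)[X] KK F
  exact this

lemma fracF (F : Type*) [Field F] [Algebra KK F] [FiniteDimensional KK F] :
    IsFractionRing (integers F) F := by
  letI : Algebra (ZMod 2)[X] F :=
    ((algebraMap KK F).comp (algebraMap (ZMod 2)[X] KK)).toAlgebra
  have t1 : IsScalarTower (ZMod 2)[X] KK F := IsScalarTower.of_algebraMap_eq fun _ => rfl
  have : IsFractionRing (integralClosure (ZMod 2)[X] F) F :=
    integralClosure.isFractionRing_of_finite_extension KK F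
  exact this

lemma intL (F L : Type*) [Field F] [Field L] [Algebra KK F] [Algebra KK L] [Algebra F L]
    [IsScalarTower KK F L] :
    integers L = (integralClosure (integers F) L).toSubring := by
  letI iF : Algebra (ZMod 2)[X] F :=
    ((algebraMap KK F).comp (algebraMap (ZMod 2)[X] KK)).toAlgebra
  letI iL : Algebra (ZMod 2)[X] L :=
    ((algebraMap KK L).comp (algebraMap (ZMod 2)[X] KK)).toAlgebra
  have t3 : IsScalarTower (ZMod 2)[X] F L := by
    refine IsScalarTower.of_algebraMap_eq fun x => ?_
    exact IsScalarTower.algebraMap_apply KK F L (algebraMap (ZMod 2)[X] KK x)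
  ext x
  constructor
  · intro hx
    have hx' : IsIntegral (ZMod 2)[X] x := hx
    change IsIntegral (integralClosure (ZMod 2)[X] F).toSubring x
    obtain ⟨P, hP, hPx⟩ := hx'
    have hPx' : aeval x P = 0 := hPx
    refine ⟨P.map (algebraMap (ZMod 2)[X] (integralClosure (ZMod 2)[X] F)), hP.map _, ?_⟩
    rw [eval₂_map]
    have he : ((algebraMap (integralClosure (ZMod 2)[X] F).toSubring L).comp
        (algebraMap (ZMod 2)[X] (integralClosure (ZMod 2)[X] F)) : (ZMod 2)[X] →+* L) =
        algebraMap (ZMod 2)[X] L := by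
      refine RingHom.ext fun r => ?_
      exact (IsScalarTower.algebraMap_apply (ZMod 2)[X] F L r).symm
    exact (congrArg (fun φ : (ZMod 2)[X] →+* L => eval₂ φ x P) he).trans hPx
  · intro hx
    change IsIntegral (integralClosure (ZMod 2)[X] F) x at hx
    change IsIntegral (ZMod 2)[X] x
    exact isIntegral_trans x hx

/-- the ring of integers of `𝔽₄(u)` is `𝔽₄[u]` -/
lemma mem_int_iff {x : LL} : x ∈ integers LL ↔ ∃ p, x = mk p := by
  constructor
  · intro hx
    rw [mem_integers] at hx
    obtain ⟨P, hP, hPx⟩ := hx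
    have h1 : IsIntegral k[X] x := by
      refine ⟨P.map iota, hP.map _, ?_⟩
      rw [eval₂_map]
      have he : (algebraMap k[X] LL).comp iota =
          (algebraMap KK LL).comp (algebraMap (ZMod 2)[X] KK) := by
        refine RingHom.ext fun a => ?_
        exact (kl_mk a).symm
      rw [he]
      exact hPx
    rw [IsIntegrallyClosed.isIntegral_iff] at h1
    obtain ⟨p, hp⟩ := h1
    exact ⟨p, hp.symm⟩
  · rintro ⟨p, rfl⟩
    induction p using Polynomial.induction_on' with
    | add p q hp hq => rw [map_add]; exact (integers LL).add_mem hp hq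
    | monomial n a =>
      rw [← C_mul_X_pow_eq_monomial, map_mul, map_pow]
      refine (integers LL).mul_mem ?_ ((integers LL).pow_mem ?_ n)
      · rw [mem_integers]
        refine ⟨X ^ 4 - X, ?_, ?_⟩
        · monicity!
        · rw [eval₂_sub, eval₂_X_pow, eval₂_X, ← map_pow, ← C_pow, pow4, sub_self]
      · rw [mem_integers]
        refine ⟨X ^ 3 - C X, ?_, ?_⟩
        · monicity!
        · rw [eval₂_sub, eval₂_X_pow, eval₂_C, RingHom.comp_apply]
          have := t_eq
          change _ = mk X ^ 3 at this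
          rw [this, sub_self]

lemma dat : Dat sg tg u (ee om) (Set.range ee) (integers LL) where
  hsum := sum_G
  hu := u_ne0
  h2 := two_LL
  hw := ee_om_eq
  σu := sg_u
  σw := sg_ee om
  τu := tg_u
  τw := tg_ee om
  ττ := rel_tt
  τσ := rel_ts
  σσσ := rel_sss
  Cσ := by
    rintro _ ⟨c, rfl⟩
    exact sg_ee c
  Cτ := by
    rintro _ ⟨c, rfl⟩
    exact tg_ee c
  CR := by
    rintro _ ⟨c, rfl⟩
    exact mem_int_iff.2 ⟨C c, rfl⟩
  wR := mem_int_iff.2 ⟨C om, rfl⟩
  uR := mem_int_iff.2 ⟨X, rfl⟩
  GR := by
    intro g x hx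
    rw [intL KK LL] at hx ⊢
    exact gal_mem (integers KK) g hx
  hind := by
    intro x hx
    obtain ⟨p, rfl⟩ := mem_int_iff.1 hx
    clear hx
    induction p using Polynomial.induction_on' with
    | add p q hp hq => rw [map_add]; exact AddSubgroup.add_mem _ hp hq
    | monomial n a =>
      rw [← C_mul_X_pow_eq_monomial, map_mul, map_pow]
      exact AddSubgroup.subset_closure ⟨ee a, ⟨a, rfl⟩, n, rfl⟩
  h3 := by
    intro h
    obtain ⟨p, hp⟩ := mem_int_iff.1 h
    have hu := u_ne0
    have h1 : mk (X ^ 3 * p) = mk 1 := by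
      rw [map_mul, ← hp, map_pow, map_one]
      change u ^ 3 * (u ^ 3)⁻¹ = 1
      exact mul_inv_cancel₀ (pow_ne_zero 3 hu)
    have h2 := mk_inj h1
    have h3 := congrArg (fun p : k[X] => p.coeff 0) h2
    simp [mul_coeff_zero] at h3

end Pool.Agent.U148.HG.Ex
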