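import Pool.Agent.U148.HG.GenL

/-!
# The calculations for the counterexample
-/

set_option autoImplicit false

namespace Pool.Agent.U148.HG

open scoped TensorProduct Classical

/-- the data of the example -/
structure Dat {K L : Type*} [Field K] [Field L] [Algebra K L] [FiniteDimensional K L]
    (σ τ : L ≃ₐ[K] L) (u w : L) (Cs : Set L) (R : Subring L) : Prop where
  hsum : ∀ f : (L ≃ₐ[K] L) → L, ∑ g : L ≃ₐ[K] L, f g =
    f 1 + f σ + f (σ * σ) + f τ + f (σ * τ) + f (σ * σ * τ)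
  hu : u ≠ 0
  h2 : (2 : L) = 0
  hw : w ^ 2 + w + 1 = 0
  σu : σ u = w * u
  σw : σ w = w
  τu : τ u = u
  τw : τ w = w ^ 2
  ττ : τ * τ = 1
  τσ : τ * σ = σ * σ * τ
  σσσ : σ * σ * σ = 1
  Cσ : ∀ c ∈ Cs, σ c = c
  Cτ : ∀ c ∈ Cs, τ c = c ^ 2
  CR : ∀ c ∈ Cs, c ∈ R
  wR : w ∈ R
  uR : u ∈ R
  GR : ∀ (g : L ≃ₐ[K] L), ∀ x ∈ R, g x ∈ R
  hind : ∀ x ∈ R, x ∈ AddSubgroup.closure {z | ∃ c ∈ Cs, ∃ m : ℕ, z = c * u ^ m}
  h3 : (u ^ 3)⁻¹ ∉ R

namespace Dat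

variable {K L : Type*} [Field K] [Field L] [Algebra K L] [FiniteDimensional K L]
  {σ τ : L ≃ₐ[K] L} {u w : L} {Cs : Set L} {R : Subring L}

lemma w3 (D : Dat σ τ u w Cs R) : w ^ 3 = 1 := by
  linear_combination (w - 1) * D.hw

lemma w0 (D : Dat σ τ u w Cs R) : w ≠ 0 := by
  intro h
  have := D.w3
  rw [h] at this
  norm_num at this

lemma winv (D : Dat σ τ u w Cs R) : w⁻¹ = w ^ 2 := by
  have h := D.w0
  field_simp
  exact D.w3.symm

lemma ww (D : Dat σ τ u w Cs R) : w + w ^ 2 = 1 := by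
  linear_combination D.hw - D.h2

/-- the basic sum -/
lemma gsum (D : Dat σ τ u w Cs R) {c : L} (h1 : σ c = c) (h2 : τ c = c ^ 2) (k : ℕ) :
    ∑ g : L ≃ₐ[K] L, g (w * c * (u⁻¹) ^ k) =
      (w * c + w ^ 2 * c ^ 2) * (1 + (w ^ 2) ^ k + (w ^ 4) ^ k) * (u⁻¹) ^ k := by
  rw [D.hsum]
  simp only [AlgEquiv.mul_apply, AlgEquiv.one_apply, map_mul, map_inv₀, map_pow, D.σu, D.σw,
    D.τu, D.τw, h1, h2, mul_inv, D.winv]
  have e : (w ^ 2 * (w ^ 2 * u⁻¹)) ^ k = (w ^ 4) ^ k * (u⁻¹) ^ k := by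
    rw [← mul_pow]
    ring
  rw [e, mul_pow (w ^ 2) (u⁻¹) k]
  ring

/-- the sum for the test function -/
lemma C1 (D : Dat σ τ u w Cs R) : ∀ x ∈ R, ∑ g : L ≃ₐ[K] L, g (w * (u ^ 2)⁻¹ * x) ∈ R := by
  intro x hx
  have h := D.hind x hx
  clear hx
  induction h using AddSubgroup.closure_induction with
  | mem x hx =>
    obtain ⟨c, hc, m, rfl⟩ := hx
    have hw0 := D.w0
    have hu := D.hu
    match m with
    | 0 =>
      have h1 : w * (u ^ 2)⁻¹ * (c * u ^ 0) = w * c * (u⁻¹) ^ 2 := by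
        rw [inv_pow]
        ring
      rw [h1, D.gsum (D.Cσ c hc) (D.Cτ c hc)]
      have h2 : (1 : L) + (w ^ 2) ^ 2 + (w ^ 4) ^ 2 = 0 := by
        linear_combination (1 - w + w ^ 2) * (1 - w ^ 2 + w ^ 4) * D.hw
      rw [h2, mul_zero, zero_mul]
      exact R.zero_mem
    | 1 =>
      have h1 : w * (u ^ 2)⁻¹ * (c * u ^ 1) = w * c * (u⁻¹) ^ 1 := by
        field_simp
      rw [h1, D.gsum (D.Cσ c hc) (D.Cτ c hc)]
      have h2 : (1 : L) + (w ^ 2) ^ 1 + (w ^ 4) ^ 1 = 0 := by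
        linear_combination (1 - w + w ^ 2) * D.hw
      rw [h2, mul_zero, zero_mul]
      exact R.zero_mem
    | n + 2 =>
      have h1 : w * (u ^ 2)⁻¹ * (c * u ^ (n + 2)) = w * c * u ^ n := by
        field_simp
        ring
      rw [h1]
      exact R.sum_mem fun g _ => D.GR g _ (R.mul_mem (R.mul_mem D.wR (D.CR c hc))
        (R.pow_mem D.uR n))
  | zero => simp [R.zero_mem]
  | add x y _ _ hx hy =>
    simp only [mul_add, map_add, Finset.sum_add_distrib]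
    exact R.add_mem hx hy
  | neg x _ hx =>
    simp only [mul_neg, map_neg, Finset.sum_neg_distrib]
    exact R.neg_mem hx

lemma τi (D : Dat σ τ u w Cs R) : τ⁻¹ = τ := inv_eq_of_mul_eq_one_left D.ττ

lemma c1 (D : Dat σ τ u w Cs R) : σ * τ⁻¹ * σ⁻¹ = σ * σ * τ := by
  rw [mul_inv_eq_iff_eq_mul, D.τi, mul_assoc (σ * σ), D.τσ]
  calc σ * τ = (σ * σ * σ) * (σ * τ) := by rw [D.σσσ, one_mul]
    _ = _ := by simp only [mul_assoc]

lemma c2 (D : Dat σ τ u w Cs R) : σ * σ * τ⁻¹ * (σ * σ)⁻¹ = σ * τ := by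
  rw [mul_inv_eq_iff_eq_mul, D.τi]
  calc σ * σ * τ = (σ * σ * σ) * (σ * σ * τ) := by rw [D.σσσ, one_mul]
    _ = σ * (σ * σ) * (σ * σ * τ) := by simp only [mul_assoc]
    _ = σ * (σ * σ) * (τ * σ) := by rw [D.τσ]
    _ = σ * (σ * σ * τ) * σ := by simp only [mul_assoc]
    _ = σ * (τ * σ) * σ := by rw [D.τσ]
    _ = _ := by simp only [mul_assoc]

lemma c3 (_ : Dat σ τ u w Cs R) (g : L ≃ₐ[K] L) :
    g * τ * τ⁻¹ * (g * τ)⁻¹ = g * τ⁻¹ * g⁻¹ := by group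

lemma C2 (D : Dat σ τ u w Cs R) : ∀ x ∈ R,
    ∑ g : L ≃ₐ[K] L, g (w * u⁻¹) * (g * τ⁻¹ * g⁻¹ : L ≃ₐ[K] L) x ∈ R := by
  intro x hx
  have h := D.hind x hx
  clear hx
  induction h using AddSubgroup.closure_induction with
  | mem x hx =>
    obtain ⟨c, hc, m, rfl⟩ := hx
    have hw0 := D.w0
    have hu := D.hu
    have hσ := D.Cσ c hc
    have hτ := D.Cτ c hc
    have e0 : τ * τ⁻¹ * τ⁻¹ = (1 : L ≃ₐ[K] L) * τ⁻¹ * 1⁻¹ := by
      simp
    have key : ∑ g : L ≃ₐ[K] L, g (w * u⁻¹) * (g * τ⁻¹ * g⁻¹ : L ≃ₐ[K] L) (c * u ^ m) =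
        (w + w ^ 2) * c ^ 2 * (1 + w ^ 2 * (w ^ 2) ^ m + w ^ 4 * w ^ m) * (u⁻¹ * u ^ m) := by
      rw [D.hsum]
      rw [D.c3 (σ * σ), D.c3 σ, e0, D.c1, D.c2, D.τi]
      simp only [AlgEquiv.mul_apply, AlgEquiv.one_apply, map_mul, map_inv₀, map_pow, D.σu, D.σw,
        D.τu, D.τw, hσ, hτ, mul_inv, D.winv, inv_one]
      rw [mul_pow w (w * u) m, mul_pow w u m, ← pow_mul w 2 m, mul_comm 2 m, pow_mul w m 2]
      ring
    rw [key]
    match m with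
    | 0 =>
      have h2 : (1 : L) + w ^ 2 * (w ^ 2) ^ 0 + w ^ 4 * w ^ 0 = 0 := by
        linear_combination (1 - w + w ^ 2) * D.hw
      rw [h2, mul_zero, zero_mul]
      exact R.zero_mem
    | n + 1 =>
      have h1 : u⁻¹ * u ^ (n + 1) = u ^ n := by
        field_simp
        ring
      rw [h1]
      refine R.mul_mem (R.mul_mem (R.mul_mem ?_ (R.pow_mem (D.CR c hc) 2)) ?_)
        (R.pow_mem D.uR n)
      · exact R.add_mem D.wR (R.pow_mem D.wR 2)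
      · exact R.add_mem (R.add_mem R.one_mem (R.mul_mem (R.pow_mem D.wR 2)
          (R.pow_mem (R.pow_mem D.wR 2) _))) (R.mul_mem (R.pow_mem D.wR 4) (R.pow_mem D.wR _))
  | zero => simp [R.zero_mem]
  | add x y _ _ hx hy =>
    simp only [mul_add, map_add, Finset.sum_add_distrib]
    exact R.add_mem hx hy
  | neg x _ hx =>
    simp only [mul_neg, map_neg, Finset.sum_neg_distrib]
    exact R.neg_mem hx

lemma C3 (D : Dat σ τ u w Cs R) :
    ∑ g : L ≃ₐ[K] L, g (w * (u ^ 2)⁻¹) * (τ⁻¹ * g : L ≃ₐ[K] L) u = u⁻¹ := by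
  have hu := D.hu
  rw [D.hsum, D.τi]
  simp only [AlgEquiv.mul_apply, AlgEquiv.one_apply, map_mul, map_inv₀, map_pow, D.σu, D.σw,
    D.τu, D.τw, mul_inv, D.winv, ← inv_pow]
  have e1 : u⁻¹ ^ 2 * u = u⁻¹ := by field_simp
  have e2 : (w + w ^ 2) * (1 + w ^ 6 + w ^ 12) = 1 := by
    have h6 : w ^ 6 = 1 := by rw [show w ^ 6 = (w ^ 3) ^ 2 by ring, D.w3, one_pow]
    have h12 : w ^ 12 = 1 := by rw [show w ^ 12 = (w ^ 3) ^ 4 by ring, D.w3, one_pow]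
    rw [h6, h12, D.ww]
    linear_combination D.h2
  calc _ = ((w + w ^ 2) * (1 + w ^ 6 + w ^ 12)) * (u⁻¹ ^ 2 * u) := by ring
    _ = u⁻¹ := by rw [e1, e2, one_mul]

lemma C4 (D : Dat σ τ u w Cs R) :
    ∑ g : L ≃ₐ[K] L, g (w * u⁻¹ * (u⁻¹) ^ 2) = (u ^ 3)⁻¹ := by
  have h1 : w * u⁻¹ * (u⁻¹) ^ 2 = w * 1 * (u⁻¹) ^ 3 := by ring
  rw [h1, D.gsum (map_one σ) (by rw [map_one, one_pow]), inv_pow]
  have h6 : (w ^ 2) ^ 3 = 1 := by rw [show (w ^ 2) ^ 3 = (w ^ 3) ^ 2 by ring, D.w3, one_pow]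
  have h12 : (w ^ 4) ^ 3 = 1 := by rw [show (w ^ 4) ^ 3 = (w ^ 3) ^ 4 by ring, D.w3, one_pow]
  rw [h6, h12]
  have e : (w * 1 + w ^ 2 * 1 ^ 2) * (1 + 1 + 1) = 1 := by
    linear_combination 3 * D.ww + D.h2
  rw [e, one_mul]

/-- the associated order in `H_λ` is not a Hopf order -/
lemma not_hopf (D : Dat σ τ u w Cs R) (O : Set L) :
    ¬ HopfStable O (HH.toMA '' (assocN (K := K) R : Set (HH K L))) := by
  intro hH
  have h := hopf_nec R (w := w * (u ^ 2)⁻¹) (y := u) (a := w * u⁻¹) (τ := τ) D.uR D.C1 D.C2 hH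
  rw [D.C3, D.C4] at h
  exact D.h3 h

/-- the trace of `w` is one -/
lemma tr [IsGalois K L] (D : Dat σ τ u w Cs R) : Algebra.trace K L w = 1 := by
  apply (algebraMap K L).injective
  rw [trace_eq_sum_automorphisms, map_one, D.hsum]
  simp only [AlgEquiv.mul_apply, AlgEquiv.one_apply, map_pow, D.σw, D.τw]
  linear_combination 3 * D.ww + D.h2

/-- the group is not commutative -/
lemma noncomm (D : Dat σ τ u w Cs R) : σ * τ ≠ τ * σ := by
  intro h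
  have h1 := congrArg (fun g : L ≃ₐ[K] L => g u) h
  simp only [AlgEquiv.mul_apply, D.σu, D.τu, map_mul, D.τw] at h1
  have h2 := mul_right_cancel₀ D.hu h1
  have h3 := D.w0
  have h4 : w = 1 := by
    have : w * (w - 1) = 0 := by linear_combination -h2
    rcases mul_eq_zero.1 this with h | h
    · exact absurd h h3
    · exact sub_eq_zero.1 h
  have h5 := D.hw
  rw [h4] at h5
  have h6 : (1 : L) = 0 := by linear_combination h5 - D.h2
  exact one_ne_zero h6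

end Dat

end Pool.Agent.U148.HG
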