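import Pool.Agent.U148.HG.Hopf

/-!
# General lemmas on associated orders
-/

set_option autoImplicit false

namespace Pool.Agent.U148.HG

open scoped TensorProduct Classical
open Polynomial

variable {K L : Type*} [Field K] [Field L] [Algebra K L] [FiniteDimensional K L]

omit [FiniteDimensional K L] in
/-- the trace of `x ↦ a g(x)` vanishes for `g ≠ 1` -/
lemma trace_twist (g : L ≃ₐ[K] L) (hg : g ≠ 1) (a : L) :
    LinearMap.trace K L ((LinearMap.mulLeft K a) ∘ₗ (g : L →ₐ[K] L).toLinearMap) = 0 := by
  obtain ⟨c, hc⟩ : ∃ c, g c ≠ c := by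
    by_contra hcon
    push Not at hcon
    exact hg (AlgEquiv.ext hcon)
  have hd : g c - c ≠ 0 := sub_ne_zero.2 hc
  let T : L → Module.End K L := fun a =>
    (LinearMap.mulLeft K a) ∘ₗ (g : L →ₐ[K] L).toLinearMap
  have hT : ∀ b, LinearMap.trace K L (T (b * g c)) = LinearMap.trace K L (T (b * c)) := by
    intro b
    have e1 : T (b * g c) = T b * LinearMap.mulLeft K c := by
      refine LinearMap.ext fun x => ?_
      change b * g c * g x = b * g (c * x)
      rw [map_mul, mul_assoc]
    have e2 : T (b * c) = LinearMap.mulLeft K c * T b := by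
      refine LinearMap.ext fun x => ?_
      change b * c * g x = c * (b * g x)
      ring
    rw [e1, e2, LinearMap.trace_mul_comm]
  have h1 := hT (a / (g c - c))
  have h2 : T a = T (a / (g c - c) * g c) - T (a / (g c - c) * c) := by
    refine LinearMap.ext fun x => ?_
    change a * g x = a / (g c - c) * g c * g x - a / (g c - c) * c * g x
    field_simp
  change LinearMap.trace K L (T a) = 0
  rw [h2, map_sub, h1, sub_self]

variable [IsGalois K L]

/-- an endomorphism preserving the integral closure has an integral trace -/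
lemma trace_mem (O : Subring K) [IsDedekindDomain O] [IsFractionRing O K] (f : Module.End K L)
    (hf : ∀ y ∈ integralClosure O L, f y ∈ integralClosure O L) :
    LinearMap.trace K L f ∈ O := by
  have hfin : Module.Finite O (integralClosure O L) := IsIntegralClosure.finite O K L _
  let fB : Module.End O (integralClosure O L) :=
    { toFun := fun y => ⟨f y, hf y y.2⟩
      map_add' := fun x y => Subtype.ext (map_add f (x : L) (y : L))
      map_smul' := fun r x => Subtype.ext (map_smul f (r : K) (x : L)) }
  have hint : Algebra.IsIntegral O (Module.End O (integralClosure O L)) := inferInstance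
  obtain ⟨P, hP, hP0⟩ := hint.isIntegral fB
  have hP0' : aeval fB P = 0 := hP0
  have key : ∀ (P : O[X]) (y : integralClosure O L),
      aeval f (P.map (algebraMap O K)) (y : L) = ((aeval fB P y : integralClosure O L) : L) := by
    intro P
    induction P using Polynomial.induction_on' with
    | add p q hp hq =>
      intro y
      rw [Polynomial.map_add, map_add, map_add, LinearMap.add_apply, LinearMap.add_apply, hp, hq]
      rfl
    | monomial n a =>
      intro y
      rw [Polynomial.map_monomial, aeval_monomial, aeval_monomial]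
      have hpow : ∀ (n : ℕ) (y : integralClosure O L),
          (f ^ n) (y : L) = (((fB ^ n) y : integralClosure O L) : L) := by
        intro n
        induction n with
        | zero => intro y; rfl
        | succ n ih =>
          intro y
          rw [pow_succ, pow_succ]
          exact ih (fB y)
      change algebraMap K (Module.End K L) (a : K) ((f ^ n) (y : L)) = _
      rw [hpow]
      rfl
  have hzero : aeval f (P.map (algebraMap O K)) = 0 := by
    have halg : Algebra.IsAlgebraic O L := by
      have : Algebra.IsAlgebraic K L := inferInstance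
      exact (IsFractionRing.comap_isAlgebraic_iff (A := O) (K := K)).2 this
    refine LinearMap.ext fun z => ?_
    obtain ⟨r, hr, hrz⟩ := (halg.isAlgebraic z).exists_integral_multiple
    have h1 := key P ⟨r • z, hrz⟩
    rw [hP0'] at h1
    have h2 : aeval f (P.map (algebraMap O K)) (r • z) =
        (r : K) • aeval f (P.map (algebraMap O K)) z := map_smul _ (r : K) z
    have h3 : (r : K) • aeval f (P.map (algebraMap O K)) z = 0 := by
      rw [← h2]
      exact h1
    have hr' : (r : K) ≠ 0 := fun h0 => hr (Subtype.ext h0)
    exact (smul_eq_zero.1 h3).resolve_left hr'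
  have h2 := trace_integral O f P hP hzero
  rw [IsIntegrallyClosed.isIntegral_iff] at h2
  obtain ⟨r, hr⟩ := h2
  rw [← hr]
  exact r.2

omit [IsGalois K L] in
lemma clAct_eq (z : MonoidAlgebra K (L ≃ₐ[K] L)) (x : L) :
    clAct z x = ∑ g : L ≃ₐ[K] L, z.coeff g • g x := by
  induction z using MonoidAlgebra.induction_linear with
  | zero => simp [clAct_zero]
  | add z z' hz hz' =>
    rw [clAct_add, hz, hz', ← Finset.sum_add_distrib]
    refine Finset.sum_congr rfl fun g _ => ?_
    rw [MonoidAlgebra.coeff_add, Finsupp.add_apply, add_smul]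
  | single g c =>
    rw [clAct_single, Finset.sum_eq_single g]
    · rw [MonoidAlgebra.coeff_single, Finsupp.single_eq_same]
    · intro h _ hh
      rw [MonoidAlgebra.coeff_single, Finsupp.single_apply, if_neg (Ne.symm hh), zero_smul]
    · intro h
      exact absurd (Finset.mem_univ g) h

/-- the coefficients of the elements of the associated order in the group algebra -/
lemma coeff_mem (O : Subring K) [IsDedekindDomain O] [IsFractionRing O K] {y0 : L}
    (hy0 : y0 ∈ integralClosure O L) (htr : Algebra.trace K L y0 = 1)
    {z : MonoidAlgebra K (L ≃ₐ[K] L)}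
    (hz : z ∈ assocC (K := K) (integralClosure O L).toSubring) (g : L ≃ₐ[K] L) :
    z.coeff g ∈ O := by
  let f : Module.End K L :=
    { toFun := fun x => (g⁻¹ : L ≃ₐ[K] L) (clAct z (y0 * x))
      map_add' := by
        intro x y
        rw [mul_add, clAct_add_right, map_add]
      map_smul' := by
        intro r x
        rw [mul_smul_comm, clAct_smul_right, map_smul]
        rfl }
  have hf : ∀ y ∈ integralClosure O L, f y ∈ integralClosure O L := by
    intro y hy
    exact gal_mem O _ (hz _ ((integralClosure O L).mul_mem hy0 hy))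
  have h1 := trace_mem O f hf
  have h2 : f = ∑ g' : L ≃ₐ[K] L, z.coeff g' • ((LinearMap.mulLeft K ((g⁻¹ * g') y0)) ∘ₗ
      ((g⁻¹ * g' : L ≃ₐ[K] L) : L →ₐ[K] L).toLinearMap) := by
    refine LinearMap.ext fun x => ?_
    rw [LinearMap.sum_apply]
    change (g⁻¹ : L ≃ₐ[K] L) (clAct z (y0 * x)) = _
    rw [clAct_eq, map_sum]
    refine Finset.sum_congr rfl fun g' _ => ?_
    rw [map_smul, map_mul, map_mul]
    rfl
  have h3 : LinearMap.trace K L f = z.coeff g := by
    rw [h2, map_sum, Finset.sum_eq_single g]
    · rw [map_smul, inv_mul_cancel]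
      have h4 : LinearMap.trace K L ((LinearMap.mulLeft K ((1 : L ≃ₐ[K] L) y0)) ∘ₗ
        ((1 : L ≃ₐ[K] L) : L →ₐ[K] L).toLinearMap) = Algebra.trace K L y0 := rfl
      rw [h4, htr, smul_eq_mul, mul_one]
    · intro g' _ hg'
      rw [map_smul, trace_twist, smul_zero]
      intro h5
      exact hg' (inv_mul_eq_one.1 h5).symm
    · intro h
      exact absurd (Finset.mem_univ g) h
  rwa [h3] at h1

omit [FiniteDimensional K L] [IsGalois K L] in
lemma single_mem (O : Subring K) (g : L ≃ₐ[K] L) {c : K} (hc : c ∈ O) :
    MonoidAlgebra.single g c ∈ assocC (K := K) (integralClosure O L).toSubring := by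
  intro y hy
  rw [clAct_single]
  exact smul_mem_int O hc (gal_mem O g hy)

omit [IsGalois K L] in
lemma sum_single (z : MonoidAlgebra K (L ≃ₐ[K] L)) :
    z = ∑ g : L ≃ₐ[K] L, MonoidAlgebra.single g (z.coeff g) := by
  apply MonoidAlgebra.ext
  ext g
  rw [MonoidAlgebra.coeff_sum, Finsupp.finsetSum_apply, Finset.sum_eq_single g]
  · rw [MonoidAlgebra.coeff_single, Finsupp.single_eq_same]
  · intro h _ hh
    rw [MonoidAlgebra.coeff_single, Finsupp.single_apply, if_neg hh]
  · intro h
    exact absurd (Finset.mem_univ g) h

lemma assocC_isOrder (O : Subring K) [IsDedekindDomain O] [IsFractionRing O K] {y0 : L}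
    (hy0 : y0 ∈ integralClosure O L) (htr : Algebra.trace K L y0 = 1) :
    IsOrder O (assocC (K := K) (integralClosure O L).toSubring) := by
  refine ⟨?_, ?_, ?_⟩
  · intro r hr
    have : algebraMap K (MonoidAlgebra K (L ≃ₐ[K] L)) r = MonoidAlgebra.single 1 r := by
      simp [MonoidAlgebra.coe_algebraMap]
    rw [this]
    exact single_mem O 1 hr
  · refine ⟨Finset.univ.image fun g : L ≃ₐ[K] L => MonoidAlgebra.single g (1 : K), ?_⟩
    ext z
    constructor
    · intro hz
      rw [SetLike.mem_coe, sum_single z]
      refine Submodule.sum_mem _ fun g _ => ?_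
      have h1 : MonoidAlgebra.single g (z.coeff g) =
          (⟨z.coeff g, coeff_mem O hy0 htr hz g⟩ : O) • MonoidAlgebra.single g (1 : K) := by
        change _ = (z.coeff g) • MonoidAlgebra.single g (1 : K)
        rw [MonoidAlgebra.smul_single, smul_eq_mul, mul_one]
      rw [h1]
      refine Submodule.smul_mem _ _ (Submodule.subset_span ?_)
      rw [Finset.coe_image]
      exact ⟨g, Finset.mem_coe.2 (Finset.mem_univ g), rfl⟩
    · intro hz
      refine Submodule.span_induction (p := fun z _ =>
        z ∈ assocC (K := K) (integralClosure O L).toSubring) ?_ ?_ ?_ ?_ hz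
      · intro x hx
        rw [Finset.coe_image] at hx
        obtain ⟨g, _, rfl⟩ := hx
        exact single_mem O g O.one_mem
      · exact Subring.zero_mem _
      · intro x y _ _ hx hy
        exact Subring.add_mem _ hx hy
      · intro r x _ hx y hy
        have : clAct (r • x) y = (r : K) • clAct x y := by
          change clAct ((r : K) • x) y = (r : K) • clAct x y
          rw [clAct_eq, clAct_eq, Finset.smul_sum]
          refine Finset.sum_congr rfl fun g _ => ?_
          rw [MonoidAlgebra.coeff_smul, Finsupp.smul_apply, smul_assoc]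
        rw [this]
        exact smul_mem_int O r.2 (hx y hy)
  · rw [eq_top_iff]
    intro z _
    rw [sum_single z]
    refine Submodule.sum_mem _ fun g _ => ?_
    have h1 : MonoidAlgebra.single g (z.coeff g) = z.coeff g • MonoidAlgebra.single g (1 : K) := by
      rw [MonoidAlgebra.smul_single, smul_eq_mul, mul_one]
    rw [h1]
    exact Submodule.smul_mem _ _ (Submodule.subset_span (single_mem O g O.one_mem))

lemma eps_add {F Γ : Type*} [Field F] [Group Γ] (x y : MonoidAlgebra F Γ) :
    eps (x + y) = eps x + eps y := by
  unfold eps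
  rw [MonoidAlgebra.coeff_add, Finsupp.sum_add_index']
  · intro a; simp
  · intro a b c; rfl

lemma eps_sum {F Γ ι : Type*} [Field F] [Group Γ] (s : Finset ι) (f : ι → MonoidAlgebra F Γ) :
    eps (∑ i ∈ s, f i) = ∑ i ∈ s, eps (f i) :=
  map_sum (⟨⟨eps, by simp [eps]⟩, eps_add⟩ : MonoidAlgebra F Γ →+ _) f s

lemma anti_add {F Γ : Type*} [Field F] [Group Γ] (x y : MonoidAlgebra F Γ) :
    anti (x + y) = anti x + anti y := by
  unfold anti
  rw [MonoidAlgebra.coeff_add, Finsupp.sum_add_index']
  · intro a; simp
  · intro a b c; simp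

lemma anti_sum {F Γ ι : Type*} [Field F] [Group Γ] (s : Finset ι) (f : ι → MonoidAlgebra F Γ) :
    anti (∑ i ∈ s, f i) = ∑ i ∈ s, anti (f i) :=
  map_sum (⟨⟨anti, by simp [anti]⟩, anti_add⟩ : MonoidAlgebra F Γ →+ _) f s

lemma assocC_hopf (O : Subring K) [IsDedekindDomain O] [IsFractionRing O K] {y0 : L}
    (hy0 : y0 ∈ integralClosure O L) (htr : Algebra.trace K L y0 = 1) :
    HopfStable (O : Set K) (assocC (K := K) (integralClosure O L).toSubring :
      Set (MonoidAlgebra K (L ≃ₐ[K] L))) := by
  refine ⟨?_, ?_, ?_⟩
  · intro x hx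
    have h1 := sum_single x
    rw [h1, delta_sum]
    refine AddSubgroup.sum_mem _ fun g _ => AddSubgroup.subset_closure ?_
    refine ⟨MonoidAlgebra.single g (x.coeff g), single_mem O g (coeff_mem O hy0 htr hx g),
      MonoidAlgebra.single g 1, single_mem O g O.one_mem, ?_⟩
    rw [delta_single, TensorProduct.smul_tmul', MonoidAlgebra.smul_single, smul_eq_mul, mul_one]
  · intro x hx
    have h1 := sum_single x
    rw [h1, eps_sum]
    refine Subring.sum_mem _ fun g _ => ?_
    have : eps (MonoidAlgebra.single g (x.coeff g)) = x.coeff g := by simp [eps]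
    rw [this]
    exact coeff_mem O hy0 htr hx g
  · intro x hx
    have h1 := sum_single x
    rw [h1, anti_sum]
    refine Subring.sum_mem _ fun g _ => ?_
    have : anti (MonoidAlgebra.single g (x.coeff g)) = MonoidAlgebra.single g⁻¹ (x.coeff g) := by
      simp [anti]
    rw [this]
    exact single_mem O _ (coeff_mem O hy0 htr hx g)

end Pool.Agent.U148.HG
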