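import Pool.Agent.U148.HG.Gen

/-!
# A necessary condition for the Hopf property of the associated order in `H_λ`
-/

set_option autoImplicit false

namespace Pool.Agent.U148.HG

open scoped TensorProduct Classical

section

variable (K L : Type*) [Field K] [Field L] [Algebra K L]

/-- The element of the group algebra `L[N]` underlying an element of `H_λ`. -/
def HH.toMA {K L : Type*} [Field K] [Field L] [Algebra K L] (h : HH K L) :
    MonoidAlgebra L (NN K L) := HH.toLN h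

end

variable {K L : Type*} [Field K] [Field L] [Algebra K L] [FiniteDimensional K L]

lemma hact_mul_left (c : L) (x : MonoidAlgebra L (LamG K L)) (y : L) :
    hact (c • x) y = c * hact x y := by
  rw [hact_eq, hact_eq, Finset.mul_sum]
  refine Finset.sum_congr rfl fun g _ => ?_
  rw [MonoidAlgebra.coeff_smul, Finsupp.smul_apply, smul_eq_mul, mul_assoc]

/-- the functional `x ↦ ∑ g(w) (x · g(y))` -/
noncomputable def phi (w y : L) : MonoidAlgebra L (LamG K L) →ₗ[L] L where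
  toFun x := ∑ g : L ≃ₐ[K] L, g w * hact x (g y)
  map_add' := by
    intro a b
    rw [← Finset.sum_add_distrib]
    refine Finset.sum_congr rfl fun g _ => ?_
    rw [hact_add, mul_add]
  map_smul' := by
    intro c a
    rw [RingHom.id_apply, smul_eq_mul, Finset.mul_sum]
    refine Finset.sum_congr rfl fun g _ => ?_
    rw [hact_mul_left]
    ring

/-- the element `∑ g(a) λ(g τ g⁻¹)` -/
noncomputable def orb (a : L) (τ : L ≃ₐ[K] L) : MonoidAlgebra L (LamG K L) :=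
  ∑ g : L ≃ₐ[K] L, MonoidAlgebra.single (lam (g * τ * g⁻¹)) (g a)

lemma act_sum (g : L ≃ₐ[K] L) {ι : Type*} (s : Finset ι) (f : ι → MonoidAlgebra L (LamG K L)) :
    act g (∑ i ∈ s, f i) = ∑ i ∈ s, act g (f i) := by
  rw [act_eq, map_sum]
  refine Finset.sum_congr rfl fun i _ => ?_
  rw [act_eq]

lemma orb_mem (a : L) (τ : L ≃ₐ[K] L) : orb a τ ∈ Hlam K L := by
  rw [mem_Hlam]
  intro g
  unfold orb
  rw [act_sum, ← Equiv.sum_comp (Equiv.mulLeft g) (fun k : L ≃ₐ[K] L =>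
    MonoidAlgebra.single (lam (k * τ * k⁻¹)) (k a))]
  refine Finset.sum_congr rfl fun k _ => ?_
  rw [act_single]
  simp only [Equiv.coe_mulLeft]
  rw [← lam_inv, ← lam_mul, ← lam_mul]
  have : g * (k * τ * k⁻¹) * g⁻¹ = g * k * τ * (g * k)⁻¹ := by group
  rw [this]
  rfl

lemma hact_orb (a : L) (τ : L ≃ₐ[K] L) (y : L) :
    hact (orb a τ) y = ∑ g : L ≃ₐ[K] L, g a * (g * τ⁻¹ * g⁻¹ : L ≃ₐ[K] L) y := by
  have h1 : ∀ (s : Finset (L ≃ₐ[K] L)) (f : (L ≃ₐ[K] L) → MonoidAlgebra L (LamG K L)),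
      hact (∑ i ∈ s, f i) y = ∑ i ∈ s, hact (f i) y := by
    intro s f
    exact map_sum (⟨⟨fun x => hact x y, hact_zero y⟩, fun a b => hact_add a b y⟩ :
      MonoidAlgebra L (LamG K L) →+ L) f s
  unfold orb
  rw [h1]
  refine Finset.sum_congr rfl fun g _ => ?_
  have h2 : (g * τ * g⁻¹)⁻¹ = g * τ⁻¹ * g⁻¹ := by group
  rw [hact_single, lam_apply, h2]

/-- the necessary condition -/
lemma hopf_nec (R : Subring L) {w y a : L} {τ : L ≃ₐ[K] L} (hy : y ∈ R)
    (hw : ∀ x ∈ R, ∑ g : L ≃ₐ[K] L, g (w * x) ∈ R)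
    (ha : ∀ x ∈ R, ∑ g : L ≃ₐ[K] L, g a * (g * τ⁻¹ * g⁻¹ : L ≃ₐ[K] L) x ∈ R)
    {O : Set L} (hH : HopfStable O (HH.toMA '' (assocN (K := K) R : Set (HH K L)))) :
    ∑ g : L ≃ₐ[K] L, g (a * (∑ g : L ≃ₐ[K] L, g w * (τ⁻¹ * g : L ≃ₐ[K] L) y) ^ 2) ∈ R := by
  let h : Hlam K L := ⟨orb a τ, orb_mem a τ⟩
  have hh : h ∈ assocOrder (K := K) R := by
    intro x hx
    have := hact_orb a τ x
    change hact (orb a τ) x ∈ R
    rw [this]
    exact ha x hx
  have hmem : (orb a τ : MonoidAlgebra L (LamG K L)) ∈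
      (HH.toMA '' (assocN (K := K) R : Set (HH K L)) : Set (MonoidAlgebra L (LamG K L))) :=
    ⟨h, hh, rfl⟩
  have h1 := hH.delta_mem _ hmem
  have h2 := sq_mem (phi w y) R (A := HH.toMA '' (assocN (K := K) R : Set (HH K L))) (by
    rintro _ ⟨b, hb, rfl⟩
    let b' : Hlam K L := b
    have hb' : ∀ y ∈ R, hact (b' : MonoidAlgebra L (LamG K L)) y ∈ R := hb
    change ∑ g : L ≃ₐ[K] L, g w * hact (b' : MonoidAlgebra L (LamG K L)) (g y) ∈ R
    have e1 : ∑ g : L ≃ₐ[K] L, g w * hact (b' : MonoidAlgebra L (LamG K L)) (g y) =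
        ∑ g : L ≃ₐ[K] L, g (w * hact (b' : MonoidAlgebra L (LamG K L)) y) := by
      refine Finset.sum_congr rfl fun g _ => ?_
      rw [map_mul]
      congr 1
      exact (E_comm b' g y).symm
    rw [e1]
    exact hw _ (hb' y hy)) h1
  have h3 : sq (phi w y) (delta (orb a τ : MonoidAlgebra L (LamG K L))) =
      ∑ g : L ≃ₐ[K] L, g (a * (∑ g : L ≃ₐ[K] L, g w * (τ⁻¹ * g : L ≃ₐ[K] L) y) ^ 2) := by
    unfold orb
    rw [delta_sum, map_sum]
    refine Finset.sum_congr rfl fun g _ => ?_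
    rw [delta_single, map_smul, sq_tmul, smul_eq_mul, map_mul, map_pow, pow_two]
    have e2 : phi w y (MonoidAlgebra.single (lam (g * τ * g⁻¹)) 1) =
        g (∑ g : L ≃ₐ[K] L, g w * (τ⁻¹ * g : L ≃ₐ[K] L) y) := by
      change ∑ k : L ≃ₐ[K] L, k w * hact (MonoidAlgebra.single (lam (g * τ * g⁻¹)) 1) (k y) = _
      rw [map_sum, ← Equiv.sum_comp (Equiv.mulLeft g) (fun k : L ≃ₐ[K] L =>
        k w * hact (MonoidAlgebra.single (lam (g * τ * g⁻¹)) 1) (k y))]
      refine Finset.sum_congr rfl fun k _ => ?_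
      simp only [Equiv.coe_mulLeft]
      have e3 : (g * τ * g⁻¹ : L ≃ₐ[K] L)⁻¹ ((g * k : L ≃ₐ[K] L) y) =
          g ((τ⁻¹ * k : L ≃ₐ[K] L) y) := by
        have e4 : (g * τ * g⁻¹ : L ≃ₐ[K] L)⁻¹ * (g * k) = g * (τ⁻¹ * k) := by group
        rw [← AlgEquiv.mul_apply, e4]
        rfl
      rw [hact_single, lam_apply, one_mul, map_mul, e3]
      rfl
    rw [e2]
  rw [← h3]
  exact h2

end Pool.Agent.U148.HG
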