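import Pool.Agent.U148.HG.Defs

/-!
# The algebra `H_λ` is the commutant of `K[G]` in `End_K(L)`
-/

set_option autoImplicit false

namespace Pool.Agent.U148.HG

open scoped Classical

variable (K L : Type*) [Field K] [Field L] [Algebra K L]

/-- the fixed elements of `L[N]` -/
def fixSet : Set (MonoidAlgebra L (LamG K L)) := {x | ∀ g : L ≃ₐ[K] L, act g x = x}

lemma fix_mul {x y : MonoidAlgebra L (LamG K L)} (hx : x ∈ fixSet K L) (hy : y ∈ fixSet K L) :
    x * y ∈ fixSet K L := fun g => by
  rw [act_eq, map_mul, ← act_eq, ← act_eq, hx g, hy g]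

lemma fix_add {x y : MonoidAlgebra L (LamG K L)} (hx : x ∈ fixSet K L) (hy : y ∈ fixSet K L) :
    x + y ∈ fixSet K L := fun g => by
  rw [act_eq, map_add, ← act_eq, ← act_eq, hx g, hy g]

lemma fix_alg (r : K) : algebraMap K (MonoidAlgebra L (LamG K L)) r ∈ fixSet K L := fun g => by
  rw [act_eq]
  exact (actHom g).commutes r

/-- `H_λ = L[N]^G`, the algebra of the elements of `L[N]` fixed by `G`. -/
noncomputable def Hlam : Subalgebra K (MonoidAlgebra L (LamG K L)) where
  carrier := fixSet K L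
  mul_mem' := fix_mul K L
  add_mem' := fix_add K L
  algebraMap_mem' := fix_alg K L

/-- The ring structure of `H_λ`. -/
noncomputable instance (priority := 2000) instRingHlam : Ring (Hlam K L) :=
  Subalgebra.toRing (Hlam K L)

/-- The `K`-algebra structure of `H_λ`. -/
noncomputable instance (priority := 2000) instAlgebraHlam : Algebra K (Hlam K L) :=
  Subalgebra.algebra (Hlam K L)

variable {K L}

lemma mem_Hlam {x : MonoidAlgebra L (LamG K L)} : x ∈ Hlam K L ↔ ∀ g, act g x = x := Iff.rfl

lemma Hlam_coeff {x : MonoidAlgebra L (LamG K L)} (hx : x ∈ Hlam K L) (g h : L ≃ₐ[K] L) :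
    x.coeff (lam (g * h * g⁻¹)) = g (x.coeff (lam h)) := by
  rw [← act_coeff, mem_Hlam.1 hx g, lam_mul, lam_mul, lam_inv]

lemma mem_Hlam_of {x : MonoidAlgebra L (LamG K L)}
    (hx : ∀ g h : L ≃ₐ[K] L, x.coeff (lam (g * h * g⁻¹)) = g (x.coeff (lam h))) :
    x ∈ Hlam K L := by
  rw [mem_Hlam]
  intro g
  apply MonoidAlgebra.ext
  ext n
  obtain ⟨h, rfl⟩ := lam_surj n
  have h1 : lam h = lam g * lam (g⁻¹ * h * g) * (lam g)⁻¹ := by
    rw [← lam_inv, ← lam_mul, ← lam_mul]
    congr 1
    group
  rw [h1, act_coeff, ← hx g, lam_mul, lam_mul, lam_inv]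

lemma hact_zero (y : L) : hact (0 : MonoidAlgebra L (LamG K L)) y = 0 := by simp [hact]

lemma hact_one (y : L) : hact (1 : MonoidAlgebra L (LamG K L)) y = y := by
  rw [MonoidAlgebra.one_def, hact_single]
  simp

variable [FiniteDimensional K L]

lemma hact_smul (c : K) (x : MonoidAlgebra L (LamG K L)) (y : L) :
    hact (c • x) y = c • hact x y := by
  rw [hact_eq, hact_eq, Finset.smul_sum]
  refine Finset.sum_congr rfl fun g _ => ?_
  rw [MonoidAlgebra.coeff_smul, Finsupp.smul_apply, smul_mul_assoc]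

lemma hact_add_right (x : MonoidAlgebra L (LamG K L)) (y z : L) :
    hact x (y + z) = hact x y + hact x z := by
  rw [hact_eq, hact_eq, hact_eq, ← Finset.sum_add_distrib]
  refine Finset.sum_congr rfl fun g _ => ?_
  rw [map_add, mul_add]

lemma hact_smul_right (x : MonoidAlgebra L (LamG K L)) (c : K) (y : L) :
    hact x (c • y) = c • hact x y := by
  rw [hact_eq, hact_eq, Finset.smul_sum]
  refine Finset.sum_congr rfl fun g _ => ?_
  rw [map_smul, mul_smul_comm]

lemma hact_mul (x : MonoidAlgebra L (LamG K L)) {y : MonoidAlgebra L (LamG K L)}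
    (hy : y ∈ Hlam K L) (z : L) : hact (x * y) z = hact x (hact y z) := by
  induction x using MonoidAlgebra.induction_linear with
  | zero => rw [zero_mul, hact_zero, hact_zero]
  | add x x' hx hx' => rw [add_mul, hact_add, hact_add, hx, hx']
  | single m r =>
    obtain ⟨g, rfl⟩ := lam_surj m
    have h1 : ∀ k : L ≃ₐ[K] L, (MonoidAlgebra.single (lam g) r * y).coeff (lam (g * k)) =
        r * y.coeff (lam k) := by
      intro k
      rw [lam_mul, MonoidAlgebra.coeff_single_mul_eq_mul_coeff (m₂ := lam k)]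
      intro m' _
      constructor
      · intro h
        exact mul_left_cancel h
      · rintro rfl
        rfl
    rw [hact_single, lam_apply, hact_eq, hact_eq,
      ← Equiv.sum_comp (Equiv.mulLeft g) (fun h => (MonoidAlgebra.single (lam g) r * y).coeff (lam h) *
        (h⁻¹ : L ≃ₐ[K] L) z), map_sum, Finset.mul_sum,
      ← Equiv.sum_comp (MulAut.conj g).toEquiv (fun k => r * (g⁻¹ : L ≃ₐ[K] L) (y.coeff (lam k) *
        (k⁻¹ : L ≃ₐ[K] L) z))]
    refine Finset.sum_congr rfl fun k _ => ?_
    simp only [Equiv.coe_mulLeft, MulEquiv.toEquiv_eq_coe, MulEquiv.coe_toEquiv,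
      MulAut.conj_apply]
    rw [h1, Hlam_coeff hy, map_mul, ← AlgEquiv.mul_apply, inv_mul_cancel, AlgEquiv.one_apply,
      mul_assoc]
    congr 2
    rw [← AlgEquiv.mul_apply]
    congr 1
    group

/-- the action of `H_λ` on `L` -/
noncomputable def E : Hlam K L →ₐ[K] Module.End K L where
  toFun h :=
    { toFun := hact (h : MonoidAlgebra L (LamG K L))
      map_add' := hact_add_right _
      map_smul' := fun c y => hact_smul_right _ c y }
  map_one' := LinearMap.ext fun y => hact_one (K := K) y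
  map_mul' := fun x y => LinearMap.ext fun z => hact_mul _ y.2 z
  map_zero' := LinearMap.ext fun y => hact_zero (K := K) y
  map_add' := fun x y => LinearMap.ext fun z => hact_add _ _ z
  commutes' := by
    intro r
    refine LinearMap.ext fun y => ?_
    change hact (algebraMap K (MonoidAlgebra L (LamG K L)) r) y = _
    rw [Algebra.algebraMap_eq_smul_one, hact_smul, hact_one]
    rfl

lemma E_apply (h : Hlam K L) (y : L) : E h y = hact (h : MonoidAlgebra L (LamG K L)) y := rfl

/-- independence of automorphisms -/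
lemma indep {c : (L ≃ₐ[K] L) → L} (h : ∀ y, ∑ g, c g * (g⁻¹ : L ≃ₐ[K] L) y = 0) : c = 0 := by
  have h1 := linearIndependent_monoidHom L L
  have h2 : LinearIndependent L (fun g : L ≃ₐ[K] L =>
      (((g⁻¹ : L ≃ₐ[K] L) : L →* L) : L → L)) := by
    refine h1.comp (fun g : L ≃ₐ[K] L => ((g⁻¹ : L ≃ₐ[K] L) : L →* L)) ?_
    intro g g' hgg
    have h3 : (g⁻¹ : L ≃ₐ[K] L) = g'⁻¹ := by
      ext y
      exact DFunLike.congr_fun hgg y
    exact inv_injective h3
  rw [Fintype.linearIndependent_iff] at h2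
  funext g
  refine h2 c ?_ g
  funext y
  rw [Finset.sum_apply]
  exact h y

lemma E_injective : Function.Injective (E : Hlam K L →ₐ[K] Module.End K L) := by
  rw [injective_iff_map_eq_zero]
  intro h hh
  have h1 : (fun g : L ≃ₐ[K] L => (h : MonoidAlgebra L (LamG K L)).coeff (lam g)) = 0 := by
    apply indep
    intro y
    rw [← hact_eq, ← E_apply, hh]
    rfl
  apply Subtype.ext
  apply MonoidAlgebra.ext
  ext n
  obtain ⟨g, rfl⟩ := lam_surj n
  exact congrFun h1 g

/-- crossed products -/
lemma full [IsGalois K L] (f : Module.End K L) :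
    ∃ c : (L ≃ₐ[K] L) → L, ∀ y, ∑ g, c g * (g⁻¹ : L ≃ₐ[K] L) y = f y := by
  let Φ : ((L ≃ₐ[K] L) → L) →ₗ[K] Module.End K L :=
    { toFun := fun c => ∑ g, (LinearMap.mulLeft K (c g)) ∘ₗ ((g⁻¹ : L ≃ₐ[K] L) : L →ₐ[K] L).toLinearMap
      map_add' := by
        intro c c'
        ext y
        simp [add_mul, Finset.sum_add_distrib]
      map_smul' := by
        intro r c
        ext y
        simp [Finset.smul_sum] }
  have hΦ : ∀ c y, Φ c y = ∑ g, c g * (g⁻¹ : L ≃ₐ[K] L) y := by
    intro c y
    simp [Φ]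
  have hinj : Function.Injective Φ := by
    rw [← LinearMap.ker_eq_bot, LinearMap.ker_eq_bot']
    intro c hc
    apply indep
    intro y
    rw [← hΦ, hc]
    rfl
  have hdim : Module.finrank K ((L ≃ₐ[K] L) → L) = Module.finrank K (Module.End K L) := by
    rw [Module.finrank_pi_fintype, Finset.sum_const, Module.finrank_linearMap, smul_eq_mul,
      Finset.card_univ, ← Nat.card_eq_fintype_card, IsGalois.card_aut_eq_finrank]
  have hsurj := (LinearMap.injective_iff_surjective_of_finrank_eq_finrank hdim).1 hinj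
  obtain ⟨c, hc⟩ := hsurj f
  exact ⟨c, fun y => by rw [← hΦ, hc]⟩

/-- every endomorphism commuting with `G` comes from `H_λ` -/
lemma E_range [IsGalois K L] (f : Module.End K L)
    (hf : ∀ (g : L ≃ₐ[K] L) (z : L), g (f z) = f (g z)) : ∃ h : Hlam K L, E h = f := by
  obtain ⟨c, hc⟩ := full f
  let x : MonoidAlgebra L (LamG K L) := ∑ g : L ≃ₐ[K] L, MonoidAlgebra.single (lam g) (c g)
  have hx : ∀ g, x.coeff (lam g) = c g := by
    intro g
    change (∑ h : L ≃ₐ[K] L, MonoidAlgebra.single (lam h) (c h)).coeff (lam g) = c g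
    rw [MonoidAlgebra.coeff_sum, Finsupp.finsetSum_apply, Finset.sum_eq_single g]
    · rw [MonoidAlgebra.coeff_single, Finsupp.single_eq_same]
    · intro h _ hh
      rw [MonoidAlgebra.coeff_single, Finsupp.single_apply, if_neg]
      intro h2
      exact hh (lam_inj h2)
    · intro h
      exact absurd (Finset.mem_univ g) h
  have hfix : ∀ g h : L ≃ₐ[K] L, c (g * h * g⁻¹) = g (c h) := by
    intro g
    have h1 : (fun k : L ≃ₐ[K] L => c k - g (c (g⁻¹ * k * g))) = 0 := by
      apply indep
      intro y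
      have h2 : g (f (g⁻¹ y)) = f y := by
        rw [hf, ← AlgEquiv.mul_apply, mul_inv_cancel]
        rfl
      have h3 : g (f (g⁻¹ y)) = ∑ k, g (c (g⁻¹ * k * g)) * (k⁻¹ : L ≃ₐ[K] L) y := by
        rw [← hc, map_sum,
          ← Equiv.sum_comp (MulAut.conj g⁻¹).toEquiv (fun k => g (c k * (k⁻¹ : L ≃ₐ[K] L) (g⁻¹ y)))]
        refine Finset.sum_congr rfl fun k _ => ?_
        simp only [MulEquiv.toEquiv_eq_coe, MulEquiv.coe_toEquiv, MulAut.conj_apply, inv_inv]
        rw [map_mul]
        congr 1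
        rw [← AlgEquiv.mul_apply, ← AlgEquiv.mul_apply]
        congr 1
        group
      rw [h3, ← hc] at h2
      simp only [sub_mul, Finset.sum_sub_distrib]
      rw [h2, sub_self]
    intro h
    have h4 := congrFun h1 (g * h * g⁻¹)
    simp only [Pi.zero_apply, sub_eq_zero] at h4
    rw [h4]
    congr 2
    group
  refine ⟨⟨x, mem_Hlam_of fun g h => by rw [hx, hx, hfix]⟩, ?_⟩
  ext y
  rw [E_apply, hact_eq, ← hc]
  refine Finset.sum_congr rfl fun g _ => ?_
  rw [hx]

end Pool.Agent.U148.HG
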