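import Pool.Agent.U148.HG.Pub

/-!
# Hopf orders: definitions and general lemmas
-/

set_option autoImplicit false

namespace Pool.Agent.U148.HG

open scoped TensorProduct Classical

section defs

variable {F Γ : Type*} [Field F] [Group Γ]

/-- The comultiplication `Δ(∑ c_g g) = ∑ c_g (g ⊗ g)` of the group algebra `F[Γ]`. -/
noncomputable def delta (x : MonoidAlgebra F Γ) : MonoidAlgebra F Γ ⊗[F] MonoidAlgebra F Γ :=
  x.coeff.sum fun g c => c • (MonoidAlgebra.single g 1 ⊗ₜ[F] MonoidAlgebra.single g 1)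

/-- The counit `ε(∑ c_g g) = ∑ c_g` of the group algebra `F[Γ]`. -/
noncomputable def eps (x : MonoidAlgebra F Γ) : F := x.coeff.sum fun _ c => c

/-- The antipode `S(∑ c_g g) = ∑ c_g g⁻¹` of the group algebra `F[Γ]`. -/
noncomputable def anti (x : MonoidAlgebra F Γ) : MonoidAlgebra F Γ :=
  x.coeff.sum fun g c => MonoidAlgebra.single g⁻¹ c

/-- The subset `A` of `F[Γ]` is stable under the Hopf structure: `Δ(A)` consists of sums of
tensors `a ⊗ b` with `a, b ∈ A`, `ε(A) ⊆ O` and `S(A) ⊆ A`. -/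
structure HopfStable (O : Set F) (A : Set (MonoidAlgebra F Γ)) : Prop where
  delta_mem : ∀ x ∈ A, delta x ∈ AddSubgroup.closure {z | ∃ a ∈ A, ∃ b ∈ A, z = a ⊗ₜ[F] b}
  eps_mem : ∀ x ∈ A, eps x ∈ O
  anti_mem : ∀ x ∈ A, anti x ∈ A

lemma delta_single (g : Γ) (c : F) :
    delta (MonoidAlgebra.single g c) = c • (MonoidAlgebra.single g 1 ⊗ₜ[F]
      MonoidAlgebra.single g 1) := by
  unfold delta
  simp

lemma delta_add (x y : MonoidAlgebra F Γ) : delta (x + y) = delta x + delta y := by
  unfold delta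
  rw [MonoidAlgebra.coeff_add, Finsupp.sum_add_index']
  · intro a; simp
  · intro a b c; rw [add_smul]

lemma delta_zero : delta (0 : MonoidAlgebra F Γ) = 0 := by simp [delta]

lemma delta_sum {ι : Type*} (s : Finset ι) (f : ι → MonoidAlgebra F Γ) :
    delta (∑ i ∈ s, f i) = ∑ i ∈ s, delta (f i) :=
  map_sum (⟨⟨delta, delta_zero⟩, delta_add⟩ : MonoidAlgebra F Γ →+ _) f s

/-- evaluation of a functional twice on `Δ` -/
noncomputable def sq (φ : MonoidAlgebra F Γ →ₗ[F] F) :
    MonoidAlgebra F Γ ⊗[F] MonoidAlgebra F Γ →ₗ[F] F :=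
  LinearMap.mul' F F ∘ₗ TensorProduct.map φ φ

lemma sq_tmul (φ : MonoidAlgebra F Γ →ₗ[F] F) (a b : MonoidAlgebra F Γ) :
    sq φ (a ⊗ₜ[F] b) = φ a * φ b := by simp [sq]

/-- values of the square of a functional on `Δ(A)` -/
lemma sq_mem (φ : MonoidAlgebra F Γ →ₗ[F] F) (R : Subring F) {A : Set (MonoidAlgebra F Γ)}
    (hA : ∀ a ∈ A, φ a ∈ R) {z : MonoidAlgebra F Γ ⊗[F] MonoidAlgebra F Γ}
    (hz : z ∈ AddSubgroup.closure {z | ∃ a ∈ A, ∃ b ∈ A, z = a ⊗ₜ[F] b}) : sq φ z ∈ R := by
  induction hz using AddSubgroup.closure_induction with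
  | mem x hx =>
    obtain ⟨a, ha, b, hb, rfl⟩ := hx
    rw [sq_tmul]
    exact R.mul_mem (hA a ha) (hA b hb)
  | zero => rw [map_zero]; exact R.zero_mem
  | add x y _ _ hx hy => rw [map_add]; exact R.add_mem hx hy
  | neg x _ hx => rw [map_neg]; exact R.neg_mem hx

end defs

section classical

variable {K L : Type*} [Field K] [Field L] [Algebra K L]

/-- The action of `K[G]` on `L`. -/
noncomputable def clAct (z : MonoidAlgebra K (L ≃ₐ[K] L)) (x : L) : L :=
  z.coeff.sum fun g c => c • g x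

lemma clAct_add (z z' : MonoidAlgebra K (L ≃ₐ[K] L)) (x : L) :
    clAct (z + z') x = clAct z x + clAct z' x := by
  unfold clAct
  rw [MonoidAlgebra.coeff_add, Finsupp.sum_add_index']
  · intro a; simp
  · intro a b c; rw [add_smul]

lemma clAct_zero (x : L) : clAct (0 : MonoidAlgebra K (L ≃ₐ[K] L)) x = 0 := by simp [clAct]

lemma clAct_single (g : L ≃ₐ[K] L) (c : K) (x : L) :
    clAct (MonoidAlgebra.single g c) x = c • g x := by
  unfold clAct
  simp

lemma clAct_one (x : L) : clAct (1 : MonoidAlgebra K (L ≃ₐ[K] L)) x = x := by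
  rw [MonoidAlgebra.one_def, clAct_single]
  simp

lemma clAct_add_right (z : MonoidAlgebra K (L ≃ₐ[K] L)) (x y : L) :
    clAct z (x + y) = clAct z x + clAct z y := by
  induction z using MonoidAlgebra.induction_linear with
  | zero => simp [clAct_zero]
  | add z z' hz hz' => rw [clAct_add, clAct_add, clAct_add, hz, hz']; abel
  | single g c => rw [clAct_single, clAct_single, clAct_single, map_add, smul_add]

lemma clAct_smul_right (z : MonoidAlgebra K (L ≃ₐ[K] L)) (r : K) (x : L) :
    clAct z (r • x) = r • clAct z x := by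
  induction z using MonoidAlgebra.induction_linear with
  | zero => simp [clAct_zero]
  | add z z' hz hz' => rw [clAct_add, clAct_add, hz, hz', smul_add]
  | single g c => rw [clAct_single, clAct_single, map_smul, smul_comm]

lemma clAct_mul (z z' : MonoidAlgebra K (L ≃ₐ[K] L)) (x : L) :
    clAct (z * z') x = clAct z (clAct z' x) := by
  induction z using MonoidAlgebra.induction_linear with
  | zero => simp [clAct_zero]
  | add z w hz hw => rw [add_mul, clAct_add, clAct_add, hz, hw]
  | single g c =>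
    induction z' using MonoidAlgebra.induction_linear with
    | zero => simp [clAct_zero, clAct_single]
    | add z w hz hw =>
      rw [mul_add, clAct_add, clAct_add, hz, hw, clAct_add_right]
    | single g' c' =>
      rw [MonoidAlgebra.single_mul_single, clAct_single, clAct_single, clAct_single, map_smul,
        mul_smul]
      rfl

lemma clAct_neg (z : MonoidAlgebra K (L ≃ₐ[K] L)) (x : L) : clAct (-z) x = -clAct z x := by
  have h := clAct_add z (-z) x
  rw [add_neg_cancel, clAct_zero] at h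
  exact (neg_eq_of_add_eq_zero_right h.symm).symm

lemma cl_mul (R : Subring L) {a b : MonoidAlgebra K (L ≃ₐ[K] L)} (ha : ∀ y ∈ R, clAct a y ∈ R)
    (hb : ∀ y ∈ R, clAct b y ∈ R) : ∀ y ∈ R, clAct (a * b) y ∈ R := fun y hy => by
  rw [clAct_mul]; exact ha _ (hb y hy)

lemma cl_one (R : Subring L) : ∀ y ∈ R, clAct (1 : MonoidAlgebra K (L ≃ₐ[K] L)) y ∈ R :=
  fun y hy => by rwa [clAct_one]

lemma cl_add (R : Subring L) {a b : MonoidAlgebra K (L ≃ₐ[K] L)} (ha : ∀ y ∈ R, clAct a y ∈ R)
    (hb : ∀ y ∈ R, clAct b y ∈ R) : ∀ y ∈ R, clAct (a + b) y ∈ R := fun y hy => by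
  rw [clAct_add]; exact R.add_mem (ha y hy) (hb y hy)

lemma cl_zero (R : Subring L) : ∀ y ∈ R, clAct (0 : MonoidAlgebra K (L ≃ₐ[K] L)) y ∈ R :=
  fun y _ => by rw [clAct_zero]; exact R.zero_mem

lemma cl_neg (R : Subring L) {a : MonoidAlgebra K (L ≃ₐ[K] L)} (ha : ∀ y ∈ R, clAct a y ∈ R) :
    ∀ y ∈ R, clAct (-a) y ∈ R := fun y hy => by
  rw [clAct_neg]; exact R.neg_mem (ha y hy)

/-- The associated order of the subring `R` of `L` in `K[G]`: the elements `z` of `K[G]` with
`z · R ⊆ R`. -/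
noncomputable def assocC (R : Subring L) : Subring (MonoidAlgebra K (L ≃ₐ[K] L)) where
  carrier := {z | ∀ y ∈ R, clAct z y ∈ R}
  mul_mem' := cl_mul R
  one_mem' := cl_one R
  add_mem' := cl_add R
  zero_mem' := cl_zero R
  neg_mem' := cl_neg R

end classical

end Pool.Agent.U148.HG
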