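import Mathlib

/-!
# Traces of integral endomorphisms
-/

set_option autoImplicit false

namespace Pool.Agent.U148.HG

open Polynomial

variable {K : Type*} [Field K]

/-- the trace of an endomorphism which is integral over `O` is integral over `O` -/
lemma trace_integral (O : Subring K) {V : Type*} [AddCommGroup V] [Module K V]
    [FiniteDimensional K V] (f : Module.End K V)
    (P : O[X]) (hP : P.Monic) (hf : aeval f (P.map (algebraMap O K)) = 0) :
    IsIntegral O (LinearMap.trace K V f) := by
  classical
  let Kb := AlgebraicClosure K
  let b := Module.finBasis K V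
  let M := LinearMap.toMatrixAlgEquiv b f
  let M' : Matrix (Fin (Module.finrank K V)) (Fin (Module.finrank K V)) Kb :=
    (Algebra.ofId K Kb).mapMatrix M
  have h1 : aeval M (P.map (algebraMap O K)) = 0 := by
    change aeval (LinearMap.toMatrixAlgEquiv b f) _ = 0
    rw [Polynomial.aeval_algHom_apply, hf, map_zero]
  have h2 : aeval M' ((P.map (algebraMap O K)).map (algebraMap K Kb)) = 0 := by
    rw [Polynomial.aeval_map_algebraMap]
    change aeval ((Algebra.ofId K Kb).mapMatrix M) _ = 0
    rw [Polynomial.aeval_algHom_apply, h1, map_zero]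
  have h3 : M'.trace = algebraMap K Kb (LinearMap.trace K V f) := by
    rw [LinearMap.trace_eq_matrix_trace K b f]
    simp only [Matrix.trace, map_sum]
    rfl
  have h4 : IsIntegral O M'.trace := by
    rw [Matrix.trace_eq_sum_roots_charpoly]
    refine IsIntegral.multiset_sum ?_
    intro μ hμ
    have h5 : μ ∈ spectrum Kb M' := Matrix.mem_spectrum_of_isRoot_charpoly
      (Polynomial.isRoot_of_mem_roots hμ)
    have h6 := spectrum.subset_polynomial_aeval M' ((P.map (algebraMap O K)).map (algebraMap K Kb))
      ⟨μ, h5, rfl⟩
    rw [h2] at h6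
    have hne : Nontrivial (Matrix (Fin (Module.finrank K V)) (Fin (Module.finrank K V)) Kb) := by
      by_contra hcon
      rw [not_nontrivial_iff_subsingleton] at hcon
      have : spectrum Kb M' = ∅ := spectrum.of_subsingleton _
      rw [this] at h5
      exact h5
    rw [spectrum.zero_eq, Set.mem_singleton_iff] at h6
    refine ⟨P, hP, ?_⟩
    beta_reduce at h6
    rw [Polynomial.eval_map, Polynomial.eval₂_map] at h6
    exact h6
  rw [h3] at h4
  exact (isIntegral_algebraMap_iff (algebraMap K Kb).injective).1 h4

end Pool.Agent.U148.HG
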