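import Pool.Agent.U148.HG.Hlam
import Pool.Agent.U148.HG.Trace

/-!
# The associated order is a maximal order
-/

set_option autoImplicit false

namespace Pool.Agent.U148.HG

open scoped Classical
open Polynomial nonZeroDivisors

variable {K L : Type*} [Field K] [Field L] [Algebra K L]

/-- `Γ` is an `O`-order of the `K`-algebra `H`: a subring which contains `O`, is a finitely
generated `O`-module and spans `H` over `K`. -/
structure IsOrder (O : Subring K) {H : Type*} [Ring H] [Algebra K H] (Γ : Subring H) : Prop where
  algebraMap_mem : ∀ r ∈ O, algebraMap K H r ∈ Γ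
  fg : ∃ s : Finset H, (Γ : Set H) = (Submodule.span O (s : Set H) : Set H)
  span : Submodule.span K (Γ : Set H) = ⊤

/-- `Γ` is a maximal `O`-order of `H`: an order which is not properly contained in an order. -/
def IsMaximalOrder (O : Subring K) {H : Type*} [Ring H] [Algebra K H] (Γ : Subring H) : Prop :=
  IsOrder O Γ ∧ ∀ Γ' : Subring H, IsOrder O Γ' → Γ ≤ Γ' → Γ' = Γ

variable [FiniteDimensional K L]

/-- the elements of `H_λ` which map `OL` to itself -/
def assocSet (OL : Subring L) : Set (Hlam K L) :=
  {h | ∀ y ∈ OL, hact (h : MonoidAlgebra L (LamG K L)) y ∈ OL}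

lemma assoc_mul (OL : Subring L) {a b : Hlam K L} (ha : a ∈ assocSet OL) (hb : b ∈ assocSet OL) :
    a * b ∈ assocSet OL := by
  intro y hy
  have : hact ((a * b : Hlam K L) : MonoidAlgebra L (LamG K L)) y =
      hact (a : MonoidAlgebra L (LamG K L)) (hact (b : MonoidAlgebra L (LamG K L)) y) :=
    hact_mul _ b.2 y
  rw [this]
  exact ha _ (hb _ hy)

omit [FiniteDimensional K L] in
lemma assoc_one (OL : Subring L) : (1 : Hlam K L) ∈ assocSet OL := by
  intro y hy
  have : hact ((1 : Hlam K L) : MonoidAlgebra L (LamG K L)) y = y := hact_one y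
  rwa [this]

omit [FiniteDimensional K L] in
lemma assoc_add (OL : Subring L) {a b : Hlam K L} (ha : a ∈ assocSet OL) (hb : b ∈ assocSet OL) :
    a + b ∈ assocSet OL := by
  intro y hy
  have : hact ((a + b : Hlam K L) : MonoidAlgebra L (LamG K L)) y =
      hact (a : MonoidAlgebra L (LamG K L)) y + hact (b : MonoidAlgebra L (LamG K L)) y :=
    hact_add _ _ y
  rw [this]
  exact OL.add_mem (ha y hy) (hb y hy)

omit [FiniteDimensional K L] in
lemma assoc_zero (OL : Subring L) : (0 : Hlam K L) ∈ assocSet OL := by
  intro y _
  have : hact ((0 : Hlam K L) : MonoidAlgebra L (LamG K L)) y = 0 := hact_zero y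
  rw [this]
  exact OL.zero_mem

lemma assoc_neg (OL : Subring L) {a : Hlam K L} (ha : a ∈ assocSet OL) : -a ∈ assocSet OL := by
  intro y hy
  have h1 : E (-a) y = - E a y := by rw [map_neg]; rfl
  rw [E_apply, E_apply] at h1
  rw [h1]
  exact OL.neg_mem (ha y hy)

/-- The associated order of the subring `OL` of `L` in `H_λ`: the elements of `H_λ` which map `OL`
to itself. -/
noncomputable def assocOrder (OL : Subring L) : Subring (Hlam K L) where
  carrier := assocSet OL
  mul_mem' := assoc_mul OL
  one_mem' := assoc_one OL
  add_mem' := assoc_add OL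
  zero_mem' := assoc_zero OL
  neg_mem' := assoc_neg OL

lemma mem_assocOrder {OL : Subring L} {h : Hlam K L} :
    h ∈ assocOrder OL ↔ ∀ y ∈ OL, E h y ∈ OL := Iff.rfl

variable [IsGalois K L]

/-- the double dual -/
lemma double_dual (O : Subring K) [IsDedekindDomain O] [IsFractionRing O K] {z : L}
    (hz : ∀ w : L, (∀ y ∈ integralClosure O L, Algebra.trace K L (w * y) ∈ O) →
      Algebra.trace K L (w * z) ∈ O) : z ∈ integralClosure O L := by
  have : IsDedekindDomain (integralClosure O L) := integralClosure.isDedekindDomain O K L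
  have : IsFractionRing (integralClosure O L) L :=
    integralClosure.isFractionRing_of_finite_extension K L
  have h00 : (1 : FractionalIdeal (integralClosure O L)⁰ L) ≠ 0 := one_ne_zero
  have h0 : (FractionalIdeal.dual O K (1 : FractionalIdeal (integralClosure O L)⁰ L)) ≠ 0 := by
    rw [ne_eq, FractionalIdeal.dual_eq_zero_iff]
    exact h00
  have h1 : z ∈ FractionalIdeal.dual O K
      (FractionalIdeal.dual O K (1 : FractionalIdeal (integralClosure O L)⁰ L)) := by
    rw [FractionalIdeal.mem_dual h0]
    intro w hw
    rw [FractionalIdeal.mem_dual h00] at hw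
    have h2 : Algebra.trace K L (w * z) ∈ O := by
      apply hz
      intro y hy
      have h3 := hw y (by
        rw [FractionalIdeal.mem_one_iff]
        exact ⟨⟨y, hy⟩, rfl⟩)
      rw [Algebra.traceForm_apply] at h3
      obtain ⟨r, hr⟩ := h3
      rw [← hr]
      exact r.2
    rw [Algebra.traceForm_apply, mul_comm]
    exact ⟨⟨_, h2⟩, rfl⟩
  rw [FractionalIdeal.dual_dual, FractionalIdeal.mem_one_iff] at h1
  obtain ⟨x, hx⟩ := h1
  rw [← hx]
  exact x.2

omit [IsGalois K L] in
/-- the action of `H_λ` commutes with `G` -/
lemma E_comm (h : Hlam K L) (g : L ≃ₐ[K] L) (z : L) : g (E h z) = E h (g z) := by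
  rw [E_apply, E_apply, hact_eq, hact_eq, map_sum,
    ← Equiv.sum_comp (MulAut.conj g).toEquiv (fun k => (h : MonoidAlgebra L (LamG K L)).coeff
      (lam k) * (k⁻¹ : L ≃ₐ[K] L) (g z))]
  refine Finset.sum_congr rfl fun k _ => ?_
  simp only [MulEquiv.toEquiv_eq_coe, MulEquiv.coe_toEquiv, MulAut.conj_apply]
  rw [Hlam_coeff h.2, map_mul]
  congr 1
  rw [← AlgEquiv.mul_apply, ← AlgEquiv.mul_apply]
  congr 1
  group

omit [FiniteDimensional K L] [IsGalois K L] in
/-- automorphisms preserve integral elements -/
lemma gal_mem (O : Subring K) (g : L ≃ₐ[K] L) {y : L} (hy : y ∈ integralClosure O L) :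
    g y ∈ integralClosure O L := by
  rw [mem_integralClosure_iff] at hy ⊢
  exact hy.map ((g : L →ₐ[K] L).restrictScalars O)

omit [FiniteDimensional K L] [IsGalois K L] in
lemma smul_mem_int (O : Subring K) {r : K} (hr : r ∈ O) {y : L} (hy : y ∈ integralClosure O L) :
    r • y ∈ integralClosure O L :=
  (integralClosure O L).smul_mem hy (⟨r, hr⟩ : O)

/-- an order containing the associated order is contained in it -/
lemma order_le (O : Subring K) [IsDedekindDomain O] [IsFractionRing O K]
    (hne : ((Module.finrank K L : ℕ) : K) ≠ 0) (hu : ((Module.finrank K L : ℕ) : K)⁻¹ ∈ O)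
    {Γ : Subring (Hlam K L)} (hΓ : IsOrder O Γ)
    (hle : assocOrder (integralClosure O L).toSubring ≤ Γ) :
    Γ ≤ assocOrder (integralClosure O L).toSubring := by
  intro h hh
  rw [mem_assocOrder]
  intro y hy
  apply double_dual O
  intro w hw
  let f : Module.End K L := ((Algebra.trace K L) ∘ₗ LinearMap.mulLeft K w).smulRight y
  let a : (L ≃ₐ[K] L) → Module.End K L := fun g => (g : L →ₐ[K] L).toLinearMap
  let fb : Module.End K L := ∑ g : L ≃ₐ[K] L, a g * f * a g⁻¹
  have hfb : ∀ z, fb z = ∑ g : L ≃ₐ[K] L, g (f ((g⁻¹ : L ≃ₐ[K] L) z)) := by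
    intro z
    change (∑ g : L ≃ₐ[K] L, a g * f * a g⁻¹) z = _
    rw [LinearMap.sum_apply]
    rfl
  have hcomm : ∀ (g : L ≃ₐ[K] L) (z : L), g (fb z) = fb (g z) := by
    intro g z
    rw [hfb, hfb, map_sum, ← Equiv.sum_comp (Equiv.mulLeft g)
      (fun k : L ≃ₐ[K] L => k (f ((k⁻¹ : L ≃ₐ[K] L) (g z))))]
    refine Finset.sum_congr rfl fun k _ => ?_
    simp only [Equiv.coe_mulLeft, mul_inv_rev]
    rw [AlgEquiv.mul_apply, AlgEquiv.mul_apply, ← AlgEquiv.mul_apply g⁻¹ g, inv_mul_cancel,
      AlgEquiv.one_apply]
  obtain ⟨h', hh'⟩ := E_range fb hcomm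
  have hh'A : h' ∈ assocOrder (integralClosure O L).toSubring := by
    rw [mem_assocOrder]
    intro z hz
    rw [hh', hfb]
    refine Subring.sum_mem _ fun g _ => ?_
    refine gal_mem O g ?_
    exact smul_mem_int O (hw _ (gal_mem O _ hz)) hy
  have hprod : h * h' ∈ Γ := Γ.mul_mem hh (hle hh'A)
  -- integrality of the trace
  have htr : LinearMap.trace K L (E (h * h')) ∈ O := by
    have hint : IsIntegral O (h * h') := by
      obtain ⟨s, hs⟩ := hΓ.fg
      let S : Subalgebra O (Hlam K L) :=
        { Γ with algebraMap_mem' := fun r => hΓ.algebraMap_mem r r.2 }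
      refine IsIntegral.of_mem_of_fg S ⟨s, ?_⟩ _ hprod
      apply SetLike.coe_injective
      rw [← hs]
      rfl
    obtain ⟨P, hP, hP0⟩ := hint
    have h1 : aeval (E (h * h')) (P.map (algebraMap O K)) = 0 := by
      rw [Polynomial.aeval_algHom_apply, Polynomial.aeval_map_algebraMap]
      have : aeval (h * h') P = 0 := hP0
      rw [this, map_zero]
    have h2 := trace_integral O (E (h * h')) P hP h1
    rw [IsIntegrallyClosed.isIntegral_iff] at h2
    obtain ⟨r, hr⟩ := h2
    rw [← hr]
    exact r.2
  have hval : LinearMap.trace K L (E (h * h')) =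
      (Module.finrank K L : ℕ) * Algebra.trace K L (w * E h y) := by
    have hc : ∀ g : L ≃ₐ[K] L, E h * a g = a g * E h := by
      intro g
      refine LinearMap.ext fun z => ?_
      exact (E_comm h g z).symm
    have ha : ∀ g : L ≃ₐ[K] L, a g⁻¹ * a g = 1 := by
      intro g
      refine LinearMap.ext fun z => ?_
      change (g⁻¹ : L ≃ₐ[K] L) (g z) = z
      rw [← AlgEquiv.mul_apply, inv_mul_cancel, AlgEquiv.one_apply]
    have h1 : ∀ g : L ≃ₐ[K] L, LinearMap.trace K L (E h * (a g * f * a g⁻¹)) =
        Algebra.trace K L (w * E h y) := by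
      intro g
      have e1 : E h * (a g * f * a g⁻¹) = a g * (E h * f * a g⁻¹) := by
        rw [← mul_assoc, ← mul_assoc, hc, mul_assoc, mul_assoc, mul_assoc]
      rw [e1, LinearMap.trace_mul_comm, mul_assoc, ha, mul_one]
      have e2 : E h * f = ((Algebra.trace K L) ∘ₗ LinearMap.mulLeft K w).smulRight (E h y) := by
        refine LinearMap.ext fun z => ?_
        change E h (Algebra.trace K L (w * z) • y) = Algebra.trace K L (w * z) • E h y
        rw [map_smul]
      rw [e2, LinearMap.trace_smulRight]
      rfl
    rw [map_mul, hh']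
    change LinearMap.trace K L (E h * ∑ g : L ≃ₐ[K] L, a g * f * a g⁻¹) = _
    rw [Finset.mul_sum, map_sum, Finset.sum_congr rfl (fun g _ => h1 g), Finset.sum_const,
      Finset.card_univ, ← Nat.card_eq_fintype_card, IsGalois.card_aut_eq_finrank, nsmul_eq_mul]
  have : Algebra.trace K L (w * E h y) =
      ((Module.finrank K L : ℕ) : K)⁻¹ * LinearMap.trace K L (E (h * h')) := by
    rw [hval, inv_mul_cancel_left₀ hne]
  rw [this]
  exact O.mul_mem hu htr

/-- the associated order is an order -/
lemma assoc_isOrder (O : Subring K) [IsDedekindDomain O] [IsFractionRing O K] :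
    IsOrder O (assocOrder (K := K) (integralClosure O L).toSubring) := by
  have hfin : Module.Finite O (integralClosure O L) := IsIntegralClosure.finite O K L _
  have hfg : (Subalgebra.toSubmodule (integralClosure O L)).FG :=
    (Submodule.fg_top _).1 hfin.fg_top
  obtain ⟨s, hs⟩ := hfg
  have hsmem : ∀ b ∈ s, b ∈ integralClosure O L := by
    intro b hb
    rw [← Subalgebra.mem_toSubmodule, ← hs]
    exact Submodule.subset_span hb
  have halg : Algebra.IsAlgebraic O L := by
    have : Algebra.IsAlgebraic K L := inferInstance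
    exact (IsFractionRing.comap_isAlgebraic_iff (A := O) (K := K)).2 this
  -- linear maps which send the generators to integral elements
  have hind : ∀ (h : Hlam K L), (∀ b ∈ s, E h b ∈ integralClosure O L) →
      h ∈ assocOrder (integralClosure O L).toSubring := by
    intro h hb
    rw [mem_assocOrder]
    intro y hy
    have hy' : y ∈ Submodule.span O (s : Set L) := by
      rw [hs]
      exact hy
    refine Submodule.span_induction (p := fun y _ => E h y ∈ integralClosure O L) ?_ ?_ ?_ ?_ hy'
    · intro b hbs
      exact hb b hbs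
    · rw [map_zero]
      exact Subalgebra.zero_mem _
    · intro u v _ _ hu hv
      rw [map_add]
      exact Subalgebra.add_mem _ hu hv
    · intro r u _ hu
      have : E h (r • u) = (r : K) • E h u := map_smul (E h) (r : K) u
      rw [this]
      exact smul_mem_int O r.2 hu
  refine ⟨?_, ?_, ?_⟩
  · intro r hr
    refine hind _ fun b hb => ?_
    rw [AlgHom.commutes]
    exact smul_mem_int O hr (hsmem b hb)
  · -- finitely generated
    let N' : Submodule O (Hlam K L) :=
      { carrier := (assocOrder (K := K) (integralClosure O L).toSubring : Set (Hlam K L))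
        add_mem' := fun ha hb => Subring.add_mem _ ha hb
        zero_mem' := Subring.zero_mem _
        smul_mem' := by
          intro r x hx y hy
          have : E (r • x) y = (r : K) • E x y := by
            have h1 : E (r • x) = (r : K) • E x := map_smul E (r : K) x
            rw [h1]
            rfl
          change E (r • x) y ∈ integralClosure O L
          rw [this]
          exact smul_mem_int O r.2 (hx y hy) }
    let Ψ : N' →ₗ[O] (s → integralClosure O L) :=
      { toFun := fun h b => ⟨E (h : Hlam K L) b, h.2 b (hsmem b b.2)⟩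
        map_add' := by
          intro x y
          funext b
          apply Subtype.ext
          change E ((x : Hlam K L) + (y : Hlam K L)) (b : L) =
            E (x : Hlam K L) (b : L) + E (y : Hlam K L) (b : L)
          rw [map_add]
          rfl
        map_smul' := by
          intro r x
          funext b
          apply Subtype.ext
          change E ((r : K) • (x : Hlam K L)) (b : L) = (r : K) • E (x : Hlam K L) (b : L)
          rw [map_smul]
          rfl }
    have hΨ : Function.Injective Ψ := by
      intro x x' hxx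
      have h1 : ∀ b ∈ s, E (x : Hlam K L) b = E (x' : Hlam K L) b := by
        intro b hb
        have := congrArg Subtype.val (congrFun hxx ⟨b, hb⟩)
        exact this
      have h2 : ∀ y ∈ integralClosure O L, E (x : Hlam K L) y = E (x' : Hlam K L) y := by
        intro y hy
        have hy' : y ∈ Submodule.span O (s : Set L) := by
          rw [hs]
          exact hy
        refine Submodule.span_induction
          (p := fun y _ => E (x : Hlam K L) y = E (x' : Hlam K L) y) ?_ ?_ ?_ ?_ hy'
        · intro b hbs
          exact h1 b hbs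
        · rw [map_zero, map_zero]
        · intro u v _ _ hu hv
          rw [map_add, map_add, hu, hv]
        · intro r u _ hu
          have e1 : E (x : Hlam K L) (r • u) = (r : K) • E (x : Hlam K L) u :=
            map_smul (E (x : Hlam K L)) (r : K) u
          have e2 : E (x' : Hlam K L) (r • u) = (r : K) • E (x' : Hlam K L) u :=
            map_smul (E (x' : Hlam K L)) (r : K) u
          rw [e1, e2, hu]
      have h3 : E (x : Hlam K L) = E (x' : Hlam K L) := by
        refine LinearMap.ext fun z => ?_
        obtain ⟨r, hr, hrz⟩ := (halg.isAlgebraic z).exists_integral_multiple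
        have h4 := h2 (r • z) hrz
        have e1 : E (x : Hlam K L) (r • z) = (r : K) • E (x : Hlam K L) z :=
          map_smul (E (x : Hlam K L)) (r : K) z
        have e2 : E (x' : Hlam K L) (r • z) = (r : K) • E (x' : Hlam K L) z :=
          map_smul (E (x' : Hlam K L)) (r : K) z
        rw [e1, e2] at h4
        have hr' : (r : K) ≠ 0 := fun h0 => hr (Subtype.ext h0)
        exact smul_right_injective L hr' h4
      exact Subtype.ext (E_injective h3)
    have hnoeth : IsNoetherian O (s → integralClosure O L) := by
      have : IsNoetherian O (integralClosure O L) := isNoetherian_of_isNoetherianRing_of_finite _ _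
      infer_instance
    have hN : IsNoetherian O N' := isNoetherian_of_injective Ψ hΨ
    obtain ⟨t, ht⟩ := (Submodule.fg_top N').1 (hN.noetherian ⊤)
    exact ⟨t, by rw [ht]; rfl⟩
  · rw [eq_top_iff]
    intro h _
    obtain ⟨r, hr, hrz⟩ := Algebra.IsAlgebraic.exists_integral_multiples O (s.image (E h))
    have hr' : (r : K) ≠ 0 := fun h0 => hr (Subtype.ext h0)
    have h1 : (r : K) • h ∈ assocOrder (integralClosure O L).toSubring := by
      refine hind _ fun b hb => ?_
      rw [map_smul]
      exact hrz _ (Finset.mem_image_of_mem _ hb)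
    have h2 : h = (r : K)⁻¹ • ((r : K) • h) := by rw [inv_smul_smul₀ hr']
    rw [h2]
    exact Submodule.smul_mem _ _ (Submodule.subset_span h1)

end Pool.Agent.U148.HG
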