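import Pool.Agent.U148.HG.Order

/-!
# `p`-adic fields
-/

set_option autoImplicit false

namespace Pool.Agent.U148.HG

open Polynomial

variable (p : ℕ) [Fact p.Prime] (K L : Type*) [Field K] [Field L]
  [Algebra ℚ_[p] K] [Algebra ℚ_[p] L] [Algebra K L] [IsScalarTower ℚ_[p] K L]
  [FiniteDimensional ℚ_[p] K] [FiniteDimensional K L]
  [Algebra ℤ_[p] K] [IsScalarTower ℤ_[p] ℚ_[p] K]
  [Algebra ℤ_[p] L] [IsScalarTower ℤ_[p] ℚ_[p] L] [IsScalarTower ℤ_[p] K L]

omit [FiniteDimensional K L] [IsScalarTower ℚ_[p] K L] [Algebra ℚ_[p] L] [Algebra K L]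
  [Algebra ℤ_[p] L] [IsScalarTower ℤ_[p] ℚ_[p] L] [IsScalarTower ℤ_[p] K L] [Field L] in
lemma dede : IsDedekindDomain (integralClosure ℤ_[p] K).toSubring := by
  have : IsDedekindDomain (integralClosure ℤ_[p] K) :=
    integralClosure.isDedekindDomain ℤ_[p] ℚ_[p] K
  exact this

lemma frac : IsFractionRing (integralClosure ℤ_[p] K).toSubring K := by
  have : IsFractionRing (integralClosure ℤ_[p] K) K :=
    integralClosure.isFractionRing_of_finite_extension ℚ_[p] K
  exact this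

lemma intL : (integralClosure ℤ_[p] L).toSubring =
    (integralClosure (integralClosure ℤ_[p] K).toSubring L).toSubring := by
  ext x
  constructor
  · intro hx
    have hx' : IsIntegral ℤ_[p] x := hx
    change IsIntegral (integralClosure ℤ_[p] K).toSubring x
    obtain ⟨P, hP, hPx⟩ := hx'
    have hPx' : aeval x P = 0 := hPx
    refine ⟨P.map (algebraMap ℤ_[p] (integralClosure ℤ_[p] K)), hP.map _, ?_⟩
    rw [eval₂_map]
    have he : ((algebraMap (integralClosure ℤ_[p] K).toSubring L).comp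
        (algebraMap ℤ_[p] (integralClosure ℤ_[p] K)) : ℤ_[p] →+* L) = algebraMap ℤ_[p] L := by
      refine RingHom.ext fun r => ?_
      exact (IsScalarTower.algebraMap_apply ℤ_[p] K L r).symm
    exact (congrArg (fun φ : ℤ_[p] →+* L => eval₂ φ x P) he).trans hPx
  · intro hx
    change IsIntegral (integralClosure ℤ_[p] K) x at hx
    change IsIntegral ℤ_[p] x
    exact isIntegral_trans x hx

lemma unit_mem {n : ℕ} (hn : ¬ p ∣ n) : ((n : ℕ) : K)⁻¹ ∈ (integralClosure ℤ_[p] K).toSubring := by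
  have h1 : IsUnit (n : ℤ_[p]) := by
    rw [PadicInt.isUnit_iff]
    by_contra hcon
    have h2 : ‖(n : ℤ_[p])‖ < 1 := lt_of_le_of_ne (PadicInt.norm_le_one _) hcon
    have h3 := (PadicInt.norm_int_lt_one_iff_dvd (p := p) (n : ℤ)).1 (by exact_mod_cast h2)
    exact hn (by exact_mod_cast h3)
  obtain ⟨u, hu⟩ := h1
  have h2 : ((n : ℕ) : K)⁻¹ = algebraMap ℤ_[p] K (u⁻¹ : (ℤ_[p])ˣ) := by
    have h3 : algebraMap ℤ_[p] K (n : ℤ_[p]) * algebraMap ℤ_[p] K (u⁻¹ : (ℤ_[p])ˣ) = 1 := by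
      rw [← map_mul, ← hu, Units.mul_inv, map_one]
    rw [map_natCast] at h3
    exact (eq_inv_of_mul_eq_one_right h3).symm
  rw [h2]
  exact isIntegral_algebraMap

end Pool.Agent.U148.HG
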