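import Pool.Agent.U148.HG.Padic

/-!
# Definitions: the canonical nonclassical Hopf-Galois structure
-/

set_option autoImplicit false

namespace Pool.Agent.U148.HG

section

variable (K L : Type*) [Field K] [Field L] [Algebra K L]

/-- The group `N = λ(G)`, a subgroup of `Perm(G)`, `G = Gal(L/K)`. -/
def NN : Type _ := LamG K L

/-- The group structure of `N`. -/
instance instGroupNN : Group (NN K L) := Subgroup.toGroup (LamG K L)

/-- The group algebra `L[N]`. -/
def LN : Type _ := MonoidAlgebra L (NN K L)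

/-- The ring structure of `L[N]`. -/
noncomputable instance instRingLN : Ring (LN K L) :=
  inferInstanceAs (Ring (MonoidAlgebra L (NN K L)))

/-- The `K`-algebra structure of `L[N]`. -/
noncomputable instance instAlgebraLN : Algebra K (LN K L) :=
  inferInstanceAs (Algebra K (MonoidAlgebra L (NN K L)))

variable {K L}

/-- The permutation of `G` given by an element of `N`. -/
def NN.perm (n : NN K L) : Equiv.Perm (L ≃ₐ[K] L) := Subtype.val n

/-- The element `λ(g)` of `N`, where `λ(g)(h) = g h`. -/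
def lamN (g : L ≃ₐ[K] L) : NN K L := lam g

/-- The action of `g` on `L[N]`: `g · (∑ c_n n) = ∑ g(c_n) λ(g) n λ(g)⁻¹`. -/
noncomputable def actN (g : L ≃ₐ[K] L) (x : LN K L) : LN K L :=
  (MonoidAlgebra.coeff x).sum fun n c => MonoidAlgebra.single (lamN g * n * (lamN g)⁻¹) (g c)

/-- The action of an element of `L[N]` on `L`: `(∑ c_n n) · y = ∑ c_n (n⁻¹(1_G))(y)`. -/
noncomputable def hactN (x : LN K L) (y : L) : L :=
  (MonoidAlgebra.coeff x).sum fun n c => c * ((NN.perm n)⁻¹ (1 : L ≃ₐ[K] L)) y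

variable (K L)

lemma fixN_mul {x y : LN K L} (hx : ∀ g : L ≃ₐ[K] L, actN g x = x)
    (hy : ∀ g : L ≃ₐ[K] L, actN g y = y) : ∀ g : L ≃ₐ[K] L, actN g (x * y) = x * y :=
  fix_mul K L hx hy

lemma fixN_add {x y : LN K L} (hx : ∀ g : L ≃ₐ[K] L, actN g x = x)
    (hy : ∀ g : L ≃ₐ[K] L, actN g y = y) : ∀ g : L ≃ₐ[K] L, actN g (x + y) = x + y :=
  fix_add K L hx hy

lemma fixN_alg (r : K) : ∀ g : L ≃ₐ[K] L, actN g (algebraMap K (LN K L) r) =
    algebraMap K (LN K L) r := fix_alg K L r

/-- `H_λ = L[N]^G`, the algebra of the elements of `L[N]` fixed by `G`. -/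
noncomputable def HlamN : Subalgebra K (LN K L) where
  carrier := {x | ∀ g : L ≃ₐ[K] L, actN g x = x}
  mul_mem' := fixN_mul K L
  add_mem' := fixN_add K L
  algebraMap_mem' := fixN_alg K L

/-- `H_λ` as a type. -/
def HH : Type _ := HlamN K L

/-- The ring structure of `H_λ`. -/
noncomputable instance instRingHH : Ring (HH K L) := Subalgebra.toRing (HlamN K L)

/-- The `K`-algebra structure of `H_λ`. -/
noncomputable instance instAlgebraHH : Algebra K (HH K L) := Subalgebra.algebra (HlamN K L)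

variable {K L}

/-- The element of `L[N]` underlying an element of `H_λ`. -/
def HH.toLN (h : HH K L) : LN K L := Subtype.val h

variable [FiniteDimensional K L]

lemma assocN_mul (R : Subring L) {a b : HH K L} (ha : ∀ y ∈ R, hactN a.toLN y ∈ R)
    (hb : ∀ y ∈ R, hactN b.toLN y ∈ R) : ∀ y ∈ R, hactN (a * b).toLN y ∈ R :=
  assoc_mul R ha hb

omit [FiniteDimensional K L] in
lemma assocN_one (R : Subring L) : ∀ y ∈ R, hactN (1 : HH K L).toLN y ∈ R := assoc_one R

omit [FiniteDimensional K L] in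
lemma assocN_add (R : Subring L) {a b : HH K L} (ha : ∀ y ∈ R, hactN a.toLN y ∈ R)
    (hb : ∀ y ∈ R, hactN b.toLN y ∈ R) : ∀ y ∈ R, hactN (a + b).toLN y ∈ R :=
  assoc_add R ha hb

omit [FiniteDimensional K L] in
lemma assocN_zero (R : Subring L) : ∀ y ∈ R, hactN (0 : HH K L).toLN y ∈ R := assoc_zero R

lemma assocN_neg (R : Subring L) {a : HH K L} (ha : ∀ y ∈ R, hactN a.toLN y ∈ R) :
    ∀ y ∈ R, hactN (-a).toLN y ∈ R := assoc_neg R ha

/-- The associated order of the subring `R` of `L` in `H_λ`: the elements `h` of `H_λ` with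
`h · R ⊆ R`. -/
noncomputable def assocN (R : Subring L) : Subring (HH K L) where
  carrier := {h | ∀ y ∈ R, hactN h.toLN y ∈ R}
  mul_mem' := assocN_mul R
  one_mem' := assocN_one R
  add_mem' := assocN_add R
  zero_mem' := assocN_zero R
  neg_mem' := assocN_neg R

end

end Pool.Agent.U148.HG
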